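import Pool.Agent.T9h4.DI.NegB
import Pool.Agent.T9h4.DI.Pos

/-!
Kummer covers of a relative affine space whose canonical class is numerically trivial: ratios of
pluricanonical forms are constant along the fibres.
-/

set_option autoImplicit false
set_option linter.overlappingInstances false
set_option linter.unusedSectionVars false

open FF MvPolynomial Pool.Agent.W602.GT Pool.Agent.W603.LV
open Pool.Agent.Y172 Pool.Agent.Y191 Pool.Agent.T9h4.DI Pool.Agent.T9h4.NT

namespace Pool.Agent.T9h4.DJ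

variable {K : Type} [Field K] [Algebra ℂ K] {σ : Type} [Fintype σ] [DecidableEq σ] {n : ℕ}
variable {F : IntermediateField ℂ K} {U : σ → K} {d e : ℕ} {y : Fin e → K}
  {ℓ : Fin e → MvPolynomial σ F}

/-- a function which is regular at all places of the relative projective space is constant -/
theorem fam_const [Algebra.EssFiniteType ℂ K] (hcl : Closed F) (hU : IsTranscendenceBasis F U)
    (l : σ) {f : K} (h1 : ∀ P (g : MvPolynomial σ F), Irreducible g → AdicF P U g → Ge P 0 f)
    (h2 : ∀ P ρ, 1 ≤ ρ → DegF F P U Finset.univ ρ → Ge P 0 f) : f ∈ F := by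
  classical
  have hfd := fd_basisF hU
  obtain ⟨δ, e, β, he, hβ⟩ := exists_dualT (K := K) (E := IntermediateField.adjoin F (Set.range U))
  obtain ⟨p, hp, hpf⟩ := exists_clear hU β (fun _ : Place F K => 0) (by simp)
  obtain ⟨C0, hC⟩ := exists_degb hU β Finset.univ ⟨l, Finset.mem_univ l⟩ (fun _ : Place F K => 0)
  have hpU : aeval U p ≠ 0 := fun h0 => hp ((injective_iff_map_eq_zero _).1 hU.1 p h0)
  have g1 : ∀ (i : ℕ) (P : Place F K) (g : MvPolynomial σ F), Irreducible g → AdicS P U g →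
      Ge P (-((0 : ℕ) : ℤ)) (f ^ i) := by
    intro i P g hg hPg
    have h3 : Ge P 0 f := h1 (Pool.Agent.Y172.dropP F P) g hg hPg
    have h4 := h3.pow i
    rw [mul_zero] at h4
    exact h4
  have g2 : ∀ (i : ℕ) (P : Place F K) (ρ : ℕ), 1 ≤ ρ →
      (∀ Q : MvPolynomial σ F, Q ≠ 0 → P.ord (aeval U Q) = -((ρ : ℤ) * bd Finset.univ Q)) →
      Ge P ((0 : ℤ) * ρ - ((0 : ℕ) : ℤ)) (f ^ i) := by
    intro i P ρ hρ hP
    have h3 : Ge P 0 f := h2 (Pool.Agent.Y172.dropP F P) ρ hρ hP
    have h4 := h3.pow i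
    rw [mul_zero] at h4
    rw [zero_mul, Nat.cast_zero, sub_zero]
    exact h4
  choose Q hQ using fun i : ℕ => hpf (f ^ i) (g1 i)
  have hdeg : ∀ i s, bd Finset.univ (Q i s) ≤ C0 + bd Finset.univ p := by
    intro i s
    rcases hC 0 (f ^ i) (g2 i) s p (Q i s) hp (hQ i s) with h3 | h3
    · rw [h3]
      unfold bd
      rw [map_zero, Polynomial.natDegree_zero]
      exact Nat.zero_le _
    · have h4 : ((bd Finset.univ (Q i s) : ℕ) : ℤ) ≤ ((C0 + bd Finset.univ p : ℕ) : ℤ) := by
        push_cast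
        linarith
      exact_mod_cast h4
  obtain ⟨B, hB⟩ : ∃ B, B = C0 + bd Finset.univ p := ⟨_, rfl⟩
  let S : Finset (σ →₀ ℕ) := Finset.univ.finsupp fun _ => Finset.range (B + 1)
  have hS : ∀ i s m, m ∉ S → coeff m (Q i s) = 0 := by
    intro i s m hm
    by_contra h0
    apply hm
    rw [Finset.mem_finsupp_iff]
    refine ⟨Finset.subset_univ _, fun j _ => ?_⟩
    have h3 := le_bd Finset.univ (mem_support_iff.2 h0)
    have h4 := Finset.single_le_sum (f := fun i => m i) (fun _ _ => Nat.zero_le _)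
      (Finset.mem_univ j)
    have h5 := hdeg i s
    rw [Finset.mem_range]
    omega
  let V := Fin δ × S → F
  obtain ⟨N, hN⟩ : ∃ N, N = Module.finrank F V + 1 := ⟨_, rfl⟩
  let c : Fin N → V := fun i q => coeff q.2.1 (Q i.1 q.1)
  have hnl : ¬ LinearIndependent F c := by
    intro h3
    have h4 := h3.fintype_card_le_finrank
    rw [Fintype.card_fin, hN] at h4
    omega
  rw [Fintype.not_linearIndependent_iff] at hnl
  obtain ⟨a, ha, i0, hi0⟩ := hnl
  have hq : ∀ s, ∑ i : Fin N, C (a i) * Q i.1 s = 0 := by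
    intro s
    refine MvPolynomial.ext _ _ fun m => ?_
    rw [coeff_sum, coeff_zero]
    simp only [coeff_C_mul]
    by_cases hm : m ∈ S
    · have h3 := congrFun ha (s, ⟨m, hm⟩)
      rw [Finset.sum_apply] at h3
      exact h3
    · exact Finset.sum_eq_zero fun i _ => by rw [hS _ _ _ hm, mul_zero]
  have hz : (∑ i : Fin N, (a i : K) * f ^ i.1) * aeval U p = 0 := by
    have h3 : ∀ i : ℕ, f ^ i * aeval U p = ∑ s, aeval U (Q i s) * e s := by
      intro i
      conv_lhs => rw [hβ (f ^ i)]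
      rw [Finset.sum_mul]
      refine Finset.sum_congr rfl fun s _ => ?_
      rw [← hQ i s]
      change (((Algebra.trace (IntermediateField.adjoin F (Set.range U)) K (f ^ i * β s) :
        IntermediateField.adjoin F (Set.range U)) : K)) * e s * aeval U p = _
      ring
    rw [Finset.sum_mul]
    have h4 : ∀ i : Fin N, (a i : K) * f ^ i.1 * aeval U p =
        ∑ s, aeval U (C (a i) * Q i.1 s) * e s := by
      intro i
      rw [mul_assoc, h3, Finset.mul_sum]
      refine Finset.sum_congr rfl fun s _ => ?_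
      rw [map_mul, aeval_C, mul_assoc]
      rfl
    simp only [h4]
    rw [Finset.sum_comm]
    refine Finset.sum_eq_zero fun s _ => ?_
    rw [← Finset.sum_mul, ← map_sum, hq s, map_zero, zero_mul]
  have hz' := (mul_eq_zero.1 hz).resolve_right hpU
  refine hcl f ⟨∑ i : Fin N, Polynomial.C (a i) * Polynomial.X ^ i.1, fun h0 => hi0 ?_, ?_⟩
  · have h3 := congrArg (fun q => Polynomial.coeff q i0.1) h0
    simp only [Polynomial.finsetSum_coeff, Polynomial.coeff_C_mul, Polynomial.coeff_X_pow,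
      Polynomial.coeff_zero] at h3
    rw [Finset.sum_eq_single i0] at h3
    · simpa using h3
    · intro i _ hi
      rw [if_neg fun h4 => hi (Fin.ext h4.symm), mul_zero]
    · intro h4
      exact absurd (Finset.mem_univ _) h4
  · rw [map_sum]
    simp only [map_mul, Polynomial.aeval_C, map_pow, Polynomial.aeval_X]
    exact hz'

/-- **Ratios of pluricanonical forms are constant.** -/
theorem Kmr.const [Algebra.EssFiniteType ℂ K] (hn : Algebra.trdeg ℂ K = n)
    (h : Kmr F U d y ℓ) (hd : 0 < d) (l : σ)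
    (hnum : (e + 1) * (d - 1) = d * (Fintype.card σ + 1)) {m : ℕ}
    {ω ω' : (Fin n → Derivation ℂ K K) → K} (hω : LogSec ℂ K n m (fun _ => False) ω)
    (hω' : LogSec ℂ K n m (fun _ => False) ω') (E : Fin n → Derivation ℂ K K)
    (hE : ω' E ≠ 0) : ω E / ω' E ∈ F := by
  classical
  have hU0 : ∀ i, U i ≠ 0 := fun i => h.bas.1.ne_zero i
  obtain ⟨q0, z, e', D, hFr⟩ := exists_FrF hn h.cl h.bas
  obtain ⟨c, hc⟩ : ∃ c, c = m * (d - 1) := ⟨_, rfl⟩
  have hℓ0 : ∏ i, ℓ i ≠ 0 := Finset.prod_ne_zero_iff.2 fun i _ => (h.irr i).ne_zero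
  obtain ⟨L, hL⟩ : ∃ L : MvPolynomial σ F, L = (∏ i, ℓ i) ^ c := ⟨_, rfl⟩
  have hL0 : L ≠ 0 := by
    rw [hL]
    exact pow_ne_zero _ hℓ0
  have hLK : aeval U L ≠ 0 := h.ne hL0
  have hL1 : ∀ P : Place ℂ K, P.ord (aeval U L) = c * ∑ i, P.ord (aeval U (ℓ i)) := by
    intro P
    rw [hL, map_pow, P.ord_pow, map_prod, ord_prod P _ _ fun i => h.ne (h.irr i).ne_zero]
  -- the function
  have key : ∀ ω : (Fin n → Derivation ℂ K K) → K, LogSec ℂ K n m (fun _ => False) ω →
      ω D ^ d * aeval U L ∈ F := by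
    intro ω hω
    have hreg : ∀ P : Place ℂ K, Divisorial n P → ∀ E : Fin n → Derivation ℂ K K,
        (∀ i, DerReg P (E i)) → ω E = 0 ∨ ((0 : ℤ) : ℝ) ≤ P.ord (ω E) := by
      intro P hP E hE
      rcases hω.2.2 P hP (fun h0 => h0) E hE with h1 | h1
      · exact Or.inl h1
      · right
        exact_mod_cast h1
    by_cases hω0 : ω D = 0
    · rw [hω0, zero_pow hd.ne', zero_mul]
      exact F.zero_mem
    refine fam_const h.cl h.bas l ?_ ?_
    · intro P g hg hPg
      have hPd := hPg.divisorial hFr hg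
      right
      rw [P.ord_mul (pow_ne_zero _ hω0) hLK, hL1, P.ord_pow]
      have h1 := (hFr.adic_ge hn hPd hg hPg hω.1 (hreg P hPd)).resolve_left hω0
      have h2 : -((m : ℤ) * (P.ord (aeval U g) - 1)) ≤ P.ord (ω D) := by
        have h3 : ((-((m : ℤ) * (P.ord (aeval U g) - 1)) : ℤ) : ℝ) ≤ ((P.ord (ω D) : ℤ) : ℝ) := by
          push_cast at h1 ⊢
          linarith
        exact_mod_cast h3
      have hsum : ∀ i, 0 ≤ P.ord (aeval U (ℓ i)) := fun i => (hPg _ (h.irr i).ne_zero).1
      have hc0 : (0 : ℤ) ≤ c := Int.natCast_nonneg _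
      have hd0 : (0 : ℤ) ≤ d := Int.natCast_nonneg _
      have h2' := mul_le_mul_of_nonneg_left h2 hd0
      rcases h.adic hd hg hPg with h3 | ⟨h3, i, h4⟩
      · rw [h3] at h2'
        have h5 : 0 ≤ (c : ℤ) * ∑ i, P.ord (aeval U (ℓ i)) :=
          mul_nonneg hc0 (Finset.sum_nonneg fun i _ => hsum i)
        simp only [sub_self, mul_zero, neg_zero] at h2'
        linarith
      · have h5 : P.ord (aeval U g) ≤ ∑ i, P.ord (aeval U (ℓ i)) := by
          rw [← h4]
          exact Finset.single_le_sum (fun i _ => hsum i) (Finset.mem_univ i)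
        have h6 := mul_le_mul_of_nonneg_left h5 hc0
        obtain ⟨d', rfl⟩ : ∃ d', d = d' + 1 := ⟨d - 1, by omega⟩
        rw [Nat.add_sub_cancel] at hc
        rw [hc] at h6 ⊢
        push_cast at h2' h3 h6 ⊢
        have h7 : 0 ≤ (m : ℤ) * (d' + 1 - P.ord (aeval U g)) :=
          mul_nonneg (Int.natCast_nonneg _) (by linarith)
        nlinarith
    · intro P ρ hρ hPJ
      have hPd := hPJ.divisorial hFr (Finset.mem_univ l) hρ
      right
      rw [P.ord_mul (pow_ne_zero _ hω0) hLK, hL1, P.ord_pow]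
      have h1 := (hFr.deg_ge hn hPd (Finset.mem_univ l) hρ hPJ hω.1
        (hreg P hPd)).resolve_left hω0
      rw [Finset.card_univ] at h1
      have h2 : -((m : ℤ) * (ρ - 1)) + (m : ℤ) * (ρ * (Fintype.card σ + 1)) ≤ P.ord (ω D) := by
        have h3 : ((-((m : ℤ) * (ρ - 1)) + (m : ℤ) * (ρ * (Fintype.card σ + 1)) : ℤ) : ℝ) ≤
            ((P.ord (ω D) : ℤ) : ℝ) := by
          push_cast at h1 ⊢
          linarith
        exact_mod_cast h3
      have h3 : ρ ≤ d := h.deg_le hd hρ hPJ l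
      have h4 : ∑ i, P.ord (aeval U (ℓ i)) = -((e : ℤ) * ρ) := by
        have h5 : ∀ i, P.ord (aeval U (ℓ i)) = -(ρ : ℤ) := fun i => by
          rw [hPJ _ (h.irr i).ne_zero, h.deg i, Nat.cast_one, mul_one]
        simp only [h5, Finset.sum_const, Finset.card_univ, Fintype.card_fin, nsmul_eq_mul]
        ring
      rw [h4]
      have hd0 : (0 : ℤ) ≤ d := Int.natCast_nonneg _
      have h2' := mul_le_mul_of_nonneg_left h2 hd0
      obtain ⟨d', rfl⟩ : ∃ d', d = d' + 1 := ⟨d - 1, by omega⟩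
      rw [Nat.add_sub_cancel] at hc hnum
      have h6 : ((e + 1) * d' : ℤ) = (d' + 1) * (Fintype.card σ + 1) := by exact_mod_cast hnum
      have h8 : ((m : ℤ) * ρ) * ((e + 1) * d') = ((m : ℤ) * ρ) * ((d' + 1) *
        (Fintype.card σ + 1)) := by rw [h6]
      have h9 : (0 : ℤ) ≤ (m : ℤ) * (d' + 1 - ρ) :=
        mul_nonneg (Int.natCast_nonneg _) (by
          have : (ρ : ℤ) ≤ ((d' + 1 : ℕ) : ℤ) := by exact_mod_cast h3
          push_cast at this
          linarith)
      rw [hc]
      push_cast at h2' ⊢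
      nlinarith
  -- the ratio
  have hD : ω' D ≠ 0 := by
    intro h0
    have h1 := pluri_zero hFr.frame hω'.1 h0
    rw [h1] at hE
    exact hE rfl
  have h1 := F.div_mem (key ω hω) (key ω' hω')
  rw [mul_div_mul_right _ _ hLK, ← div_pow] at h1
  have h2 : ω D / ω' D ∈ F := h.cl _ ((isAlgebraic_algebraMap (⟨_, h1⟩ : F)).of_pow hd)
  have h3 : ω E / ω' E = ω D / ω' D := by
    obtain ⟨M, hM⟩ : ∃ M : Matrix (Fin n) (Fin n) K, ∀ i, E i = ∑ j, M i j • D j := by
      choose c hc using fun i => hFr.frame (E i)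
      exact ⟨Matrix.of c, hc⟩
    have h4 := hω.1 M D
    have h5 := hω'.1 M D
    have h6 : (fun i => ∑ j, M i j • D j) = E := funext fun i => (hM i).symm
    rw [h6] at h4 h5
    rw [h4, h5]
    have h7 : M.det ^ m ≠ 0 := by
      intro h0
      rw [h5, h0, zero_mul] at hE
      exact hE rfl
    rw [mul_div_mul_left _ _ h7]
  rw [h3]
  exact h2

end Pool.Agent.T9h4.DJ
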