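import Mathlib

/-!
The intersection theorem for integral vectors which are bounded by two intersecting submodular
functions.
-/

set_option autoImplicit false
set_option linter.unusedSectionVars false

open Finset

namespace Pool.Agent.T9h4.DJ

variable {α : Type} [Fintype α] [DecidableEq α]

/-- the sum of the values on a set -/
def sm (c : α → ℕ) (F : Finset α) : ℤ := ∑ j ∈ F, (c j : ℤ)

theorem sm_empty (c : α → ℕ) : sm c ∅ = 0 := sum_empty

theorem sm_nonneg (c : α → ℕ) (F : Finset α) : 0 ≤ sm c F := sum_nonneg fun _ _ => Int.natCast_nonneg _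

theorem sm_mono {c : α → ℕ} {F G : Finset α} (h : F ⊆ G) : sm c F ≤ sm c G :=
  sum_le_sum_of_subset_of_nonneg h fun _ _ _ => Int.natCast_nonneg _

theorem sm_ui (c : α → ℕ) (F G : Finset α) : sm c (F ∪ G) + sm c (F ∩ G) = sm c F + sm c G :=
  sum_union_inter

theorem sm_add_single (c : α → ℕ) (x : α) (F : Finset α) :
    sm (c + Pi.single x 1) F = sm c F + if x ∈ F then 1 else 0 := by
  unfold sm
  simp only [Pi.add_apply, Nat.cast_add, sum_add_distrib]
  congr 1
  rw [← Nat.cast_sum, sum_pi_single']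
  split_ifs <;> rfl

theorem sm_single (x : α) (F : Finset α) :
    sm (Pi.single x 1 : α → ℕ) F = if x ∈ F then 1 else 0 := by
  have h := sm_add_single 0 x F
  rw [zero_add] at h
  rw [h]
  unfold sm
  simp

theorem sm_erase (c : α → ℕ) {x : α} {F : Finset α} (h : x ∈ F) :
    sm c (F.erase x) = sm c F - c x := by
  unfold sm
  rw [← add_sum_erase F _ h]
  ring

theorem sm_insert_le (c : α → ℕ) (x : α) (F : Finset α) : sm c (insert x F) ≤ sm c F + c x := by
  by_cases h : x ∈ F
  · rw [insert_eq_of_mem h]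
    have : (0 : ℤ) ≤ c x := Int.natCast_nonneg _
    linarith
  · unfold sm
    rw [sum_insert h]
    linarith

/-- intersecting submodular functions, nonnegative on the nonempty sets -/
structure ISub (f : Finset α → ℤ) : Prop where
  nn : ∀ F, F.Nonempty → 0 ≤ f F
  sub : ∀ F G, (F ∩ G).Nonempty → f (F ∪ G) + f (F ∩ G) ≤ f F + f G

/-- the vectors which are bounded by `f` -/
def Ind (f : Finset α → ℤ) (c : α → ℕ) : Prop := ∀ F, F.Nonempty → sm c F ≤ f F

theorem Ind.mono {f : Finset α → ℤ} {c c' : α → ℕ} (h : Ind f c) (hc : ∀ j, c' j ≤ c j) :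
    Ind f c' := fun F hF => le_trans (sum_le_sum fun j _ => by exact_mod_cast hc j) (h F hF)

theorem ISub.zero {f : Finset α → ℤ} (hf : ISub f) : Ind f 0 := fun F hF => by
  have : sm (0 : α → ℕ) F = 0 := by
    unfold sm
    simp
  rw [this]
  exact hf.nn F hF

/-- **Maximal vectors.** -/
theorem ext {f : Finset α → ℤ} (hf : ISub f) {c0 : α → ℕ} (h0 : Ind f c0) (Y : Finset α) :
    ∃ (c : α → ℕ) (𝓜 : Finset (Finset α)), Ind f c ∧ (∀ j, c0 j ≤ c j) ∧
      (∀ j, j ∉ Y → c j = c0 j) ∧ (∀ M ∈ 𝓜, (M ∩ Y).Nonempty ∧ sm c M = f M) ∧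
      (𝓜 : Set (Finset α)).PairwiseDisjoint id ∧ Y ⊆ 𝓜.biUnion id := by
  classical
  obtain ⟨c, hc, hmax⟩ := exists_max_image
    ((Fintype.piFinset fun j => range ((f {j}).toNat + 1)).filter
      fun c => Ind f c ∧ (∀ j, c0 j ≤ c j) ∧ ∀ j, j ∉ Y → c j = c0 j) (fun c => sm c univ) (by
    refine ⟨c0, mem_filter.2 ⟨Fintype.mem_piFinset.2 fun j => mem_range.2 ?_, h0,
      fun _ => le_rfl, fun _ _ => rfl⟩⟩
    have h1 := h0 {j} (singleton_nonempty j)
    unfold sm at h1
    rw [sum_singleton] at h1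
    omega)
  have hin : ∀ c' : α → ℕ, Ind f c' → (∀ j, c0 j ≤ c' j) → (∀ j, j ∉ Y → c' j = c0 j) →
      sm c' univ ≤ sm c univ := by
    intro c' h1 h2 h3
    refine hmax c' (mem_filter.2 ⟨Fintype.mem_piFinset.2 fun j => mem_range.2 ?_, h1, h2, h3⟩)
    have h4 := h1 {j} (singleton_nonempty j)
    unfold sm at h4
    rw [sum_singleton] at h4
    omega
  obtain ⟨-, hI, hc0, hcY⟩ := mem_filter.1 hc
  let tight : Finset α → Prop := fun F => F.Nonempty ∧ sm c F = f F
  have ht1 : ∀ y ∈ Y, ∃ F, tight F ∧ y ∈ F := by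
    intro y hy
    by_contra hcon
    push Not at hcon
    have h1 : Ind f (c + Pi.single y 1) := by
      intro F hF
      rw [sm_add_single]
      have h2 := hI F hF
      split_ifs with hyF
      · have h3 : sm c F ≠ f F := fun h4 => hcon F ⟨hF, h4⟩ hyF
        omega
      · omega
    have h2 := hin _ h1 (fun j => (hc0 j).trans (Nat.le_add_right _ _)) fun j hj => by
      have hne : j ≠ y := fun h3 => hj (h3 ▸ hy)
      rw [Pi.add_apply, Pi.single_eq_of_ne hne, add_zero, hcY j hj]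
    rw [sm_add_single, if_pos (mem_univ y)] at h2
    omega
  have hun : ∀ F G, tight F → tight G → (F ∩ G).Nonempty → tight (F ∪ G) := by
    rintro F G ⟨hF, hF1⟩ ⟨hG, hG1⟩ hFG
    have h1 := hI (F ∪ G) (hF.mono subset_union_left)
    have h2 := hI (F ∩ G) hFG
    have h3 := sm_ui c F G
    have h4 := hf.sub F G hFG
    exact ⟨hF.mono subset_union_left, by omega⟩
  have hM : ∀ y ∈ Y, ∃ M, tight M ∧ y ∈ M ∧ ∀ F, tight F → (F ∩ M).Nonempty → F ⊆ M := by
    intro y hy
    obtain ⟨F0, hF0, hy0⟩ := ht1 y hy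
    obtain ⟨M, hM, hmax⟩ := exists_max_image (univ.filter fun F => tight F ∧ y ∈ F)
      Finset.card ⟨F0, by simp only [mem_filter, mem_univ, true_and]; exact ⟨hF0, hy0⟩⟩
    simp only [mem_filter, mem_univ, true_and] at hM hmax
    refine ⟨M, hM.1, hM.2, fun F hF hne => ?_⟩
    have h1 := hmax (F ∪ M) ⟨hun F M hF hM.1 hne, mem_union_right _ hM.2⟩
    have h2 : M = F ∪ M := eq_of_subset_of_card_le subset_union_right h1
    rw [h2]
    exact subset_union_left
  choose! M hMt hyM hMmax using hM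
  refine ⟨c, Y.image M, hI, hc0, hcY, fun A hA => ?_, fun A hA B hB hAB => ?_, fun y hy => ?_⟩
  · obtain ⟨y, hy, rfl⟩ := mem_image.1 hA
    exact ⟨⟨y, mem_inter.2 ⟨hyM y hy, hy⟩⟩, (hMt y hy).2⟩
  · obtain ⟨y, hy, rfl⟩ := mem_image.1 (mem_coe.1 hA)
    obtain ⟨y', hy', rfl⟩ := mem_image.1 (mem_coe.1 hB)
    change Disjoint (M y) (M y')
    rw [disjoint_iff_inter_eq_empty]
    by_contra hcon
    have hne : (M y ∩ M y').Nonempty := nonempty_iff_ne_empty.2 hcon
    exact hAB (Subset.antisymm (hMmax y' hy' _ (hMt y hy) hne)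
      (hMmax y hy _ (hMt y' hy') (by rwa [inter_comm])))
  · exact mem_biUnion.2 ⟨M y, mem_image_of_mem M hy, hyM y hy⟩

/-- the largest value on `Y` of a vector which is bounded by `f` -/
noncomputable def rho (f : Finset α → ℤ) (Y : Finset α) : ℤ :=
  sSup {r | ∃ c, Ind f c ∧ r = sm c Y}

theorem cover_le {f : Finset α → ℤ} {c : α → ℕ} {𝓜 : Finset (Finset α)}
    (h1 : ∀ M ∈ 𝓜, M.Nonempty ∧ sm c M = f M) (h2 : (𝓜 : Set (Finset α)).PairwiseDisjoint id)
    {c' : α → ℕ} (hc' : Ind f c') : sm c' (𝓜.biUnion id) ≤ sm c (𝓜.biUnion id) := by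
  unfold sm
  rw [sum_biUnion h2, sum_biUnion h2]
  refine sum_le_sum fun M hM => ?_
  obtain ⟨h3, h4⟩ := h1 M hM
  have h5 := hc' M h3
  rw [← h4] at h5
  exact h5

theorem rho_isG {f : Finset α → ℤ} (hf : ISub f) (Y : Finset α) :
    IsGreatest {r | ∃ c, Ind f c ∧ r = sm c Y} (rho f Y) := by
  obtain ⟨c, 𝓜, h1, -, h3, h4, h5, h6⟩ := ext hf hf.zero Y
  have hG : IsGreatest {r | ∃ c, Ind f c ∧ r = sm c Y} (sm c Y) := by
    refine ⟨⟨c, h1, rfl⟩, ?_⟩
    rintro r ⟨c', hc', rfl⟩
    have h7 := cover_le (fun M hM => ⟨(h4 M hM).1.mono inter_subset_left, (h4 M hM).2⟩) h5 hc'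
    have h8 : sm c (𝓜.biUnion id) = sm c Y := by
      unfold sm
      refine (sum_subset h6 fun j _ hj => ?_).symm
      rw [h3 j hj]
      rfl
    rw [h8] at h7
    exact (sm_mono h6).trans h7
  unfold rho
  rw [hG.csSup_eq]
  exact hG

theorem le_rho {f : Finset α → ℤ} (hf : ISub f) {c : α → ℕ} (hc : Ind f c) (Y : Finset α) :
    sm c Y ≤ rho f Y := (rho_isG hf Y).2 ⟨c, hc, rfl⟩

theorem rho_mono {f : Finset α → ℤ} (hf : ISub f) {Y W : Finset α} (h : Y ⊆ W) :
    rho f Y ≤ rho f W := by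
  obtain ⟨c, hc, h1⟩ := (rho_isG hf Y).1
  rw [h1]
  exact (sm_mono h).trans (le_rho hf hc W)

theorem rho_ext {f : Finset α → ℤ} (hf : ISub f) {c0 : α → ℕ} (h0 : Ind f c0) (Y : Finset α) :
    ∃ (c : α → ℕ) (W : Finset α), Ind f c ∧ (∀ j, c0 j ≤ c j) ∧ (∀ j, j ∉ Y → c j = c0 j) ∧
      Y ⊆ W ∧ rho f W ≤ sm c W := by
  obtain ⟨c, 𝓜, h1, h2, h3, h4, h5, h6⟩ := ext hf h0 Y
  refine ⟨c, 𝓜.biUnion id, h1, h2, h3, h6, ?_⟩
  obtain ⟨c', hc', h7⟩ := (rho_isG hf (𝓜.biUnion id)).1
  rw [h7]
  exact cover_le (fun M hM => ⟨(h4 M hM).1.mono inter_subset_left, (h4 M hM).2⟩) h5 hc'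

/-- the largest values are submodular -/
theorem rho_sub {f : Finset α → ℤ} (hf : ISub f) (Y1 Y2 : Finset α) :
    rho f (Y1 ∪ Y2) + rho f (Y1 ∩ Y2) ≤ rho f Y1 + rho f Y2 := by
  obtain ⟨c0, W0, h1, -, h3, h4, h5⟩ := rho_ext hf hf.zero (Y1 ∩ Y2)
  obtain ⟨c, W, h6, h7, h8, h9, h10⟩ := rho_ext hf h1 (Y1 ∪ Y2)
  have e1 : sm c W = sm c (Y1 ∪ Y2) := by
    unfold sm
    refine (sum_subset h9 fun j _ hj => ?_).symm
    rw [h8 j hj, h3 j fun h => hj (mem_union_left _ (mem_inter.1 h).1)]
    rfl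
  have e2 : sm c0 W0 = sm c0 (Y1 ∩ Y2) := by
    unfold sm
    refine (sum_subset h4 fun j _ hj => ?_).symm
    rw [h3 j hj]
    rfl
  have e3 : sm c0 (Y1 ∩ Y2) ≤ sm c (Y1 ∩ Y2) := sum_le_sum fun j _ => by exact_mod_cast h7 j
  have e4 := rho_mono hf h9
  have e5 := rho_mono hf h4
  have e6 := le_rho hf h6 Y1
  have e7 := le_rho hf h6 Y2
  have e8 := sm_ui c Y1 Y2
  linarith

/-- contraction -/
def ctr (f : Finset α → ℤ) (x : α) : Finset α → ℤ := fun F => f F - if x ∈ F then 1 else 0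

theorem ind_ctr {f : Finset α → ℤ} {x : α} {c : α → ℕ} :
    Ind (ctr f x) c ↔ Ind f (c + Pi.single x 1) := by
  unfold Ind ctr
  refine forall_congr' fun F => forall_congr' fun _ => ?_
  rw [sm_add_single]
  constructor <;> intro h <;> linarith

theorem isub_ctr {f : Finset α → ℤ} (hf : ISub f) {x : α} (hx : Ind f (Pi.single x 1)) :
    ISub (ctr f x) := by
  refine ⟨fun F hF => ?_, fun F G hFG => ?_⟩
  · have h1 := hx F hF
    rw [sm_single] at h1
    unfold ctr
    linarith
  · have h1 := hf.sub F G hFG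
    unfold ctr
    by_cases h2 : x ∈ F <;> by_cases h3 : x ∈ G <;>
      simp only [mem_union, mem_inter, h2, h3, true_or, or_true, and_self, or_self, if_true,
        if_false, and_true, and_false] <;> linarith

theorem rho_ctr {f : Finset α → ℤ} (hf : ISub f) {x : α} (hx : Ind f (Pi.single x 1))
    (Y : Finset α) : (x ∉ Y ∧ rho f Y ≤ rho (ctr f x) Y) ∨
      rho f (insert x Y) ≤ rho (ctr f x) Y + 1 := by
  have hf' := isub_ctr hf hx
  obtain ⟨c, W, h1, h2, h3, h4, h5⟩ := rho_ext hf hx Y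
  have hcx : 1 ≤ c x := by
    have := h2 x
    rwa [Pi.single_eq_same] at this
  have hc : c = (fun j => c j - (Pi.single x 1 : α → ℕ) j) + Pi.single x 1 := by
    funext j
    have := h2 j
    simp only [Pi.add_apply]
    omega
  have h6 : Ind (ctr f x) (fun j => c j - (Pi.single x 1 : α → ℕ) j) := ind_ctr.2 (hc ▸ h1)
  have h7 := le_rho hf' h6 Y
  have h8 := sm_add_single (fun j => c j - (Pi.single x 1 : α → ℕ) j) x Y
  rw [← hc] at h8
  have h9 := sm_add_single (fun j => c j - (Pi.single x 1 : α → ℕ) j) x W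
  rw [← hc] at h9
  have h10 : sm (fun j => c j - (Pi.single x 1 : α → ℕ) j) W =
      sm (fun j => c j - (Pi.single x 1 : α → ℕ) j) Y := by
    unfold sm
    refine (sum_subset h4 fun j _ hj => ?_).symm
    change ((c j - (Pi.single x 1 : α → ℕ) j : ℕ) : ℤ) = 0
    rw [h3 j hj, Nat.sub_self]
    rfl
  by_cases hxW : x ∈ W
  · right
    have h11 := rho_mono hf (insert_subset hxW h4)
    rw [if_pos hxW] at h9
    linarith
  · left
    have hxY : x ∉ Y := fun h => hxW (h4 h)
    refine ⟨hxY, ?_⟩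
    have h11 := rho_mono hf h4
    rw [if_neg hxW] at h9
    linarith

/-- **The intersection theorem.** -/
theorem isect (n : ℕ) : ∀ (u : α → ℕ) (f g : Finset α → ℤ) (k : ℕ), ∑ j, u j = n → ISub f →
    ISub g → (∀ G Y D : Finset α, G ∪ Y ∪ D = univ → (k : ℤ) ≤ rho f G + rho g Y + sm u D) →
    ∃ c : α → ℕ, Ind f c ∧ Ind g c ∧ (∀ j, c j ≤ u j) ∧ sm c univ = k := by
  induction n with
  | zero =>
    intro u f g k hu hf hg h
    have hu0 : ∀ j, u j = 0 := fun j => by
      have := Finset.single_le_sum (f := u) (fun i _ => Nat.zero_le _) (mem_univ j)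
      omega
    have h1 := h ∅ ∅ univ (by simp)
    obtain ⟨c1, -, h2⟩ := (rho_isG hf ∅).1
    obtain ⟨c2, -, h3⟩ := (rho_isG hg ∅).1
    rw [h2, h3, sm_empty, sm_empty] at h1
    have h4 : sm u univ = 0 := by
      unfold sm
      refine sum_eq_zero fun j _ => ?_
      rw [hu0 j]
      rfl
    rw [h4] at h1
    have hk : k = 0 := by omega
    subst hk
    refine ⟨0, hf.zero, hg.zero, fun j => Nat.zero_le _, ?_⟩
    unfold sm
    simp
  | succ n ih =>
    intro u f g k hu hf hg h
    rcases Nat.eq_zero_or_pos k with hk | hk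
    · subst hk
      refine ⟨0, hf.zero, hg.zero, fun j => Nat.zero_le _, ?_⟩
      unfold sm
      simp
    obtain ⟨k', rfl⟩ : ∃ k', k = k' + 1 := ⟨k - 1, by omega⟩
    obtain ⟨x, hx⟩ : ∃ x, 0 < u x := by
      by_contra hcon
      push Not at hcon
      have h1 : ∑ j, u j = 0 := sum_eq_zero fun j _ => Nat.le_zero.1 (hcon j)
      omega
    obtain ⟨u', hu'⟩ : ∃ u' : α → ℕ, u' = fun j => u j - (Pi.single x 1 : α → ℕ) j := ⟨_, rfl⟩
    have huu : u = u' + Pi.single x 1 := by
      funext j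
      rw [hu']
      simp only [Pi.add_apply]
      by_cases hj : j = x
      · rw [hj, Pi.single_eq_same]
        omega
      · rw [Pi.single_eq_of_ne hj]
        omega
    have hsum' : ∑ j, u' j = n := by
      have h1 := sm_add_single u' x univ
      rw [← huu, if_pos (mem_univ x)] at h1
      unfold sm at h1
      rw [← Nat.cast_sum, ← Nat.cast_sum] at h1
      have h2 : ∑ j, u j = ∑ j, u' j + 1 := by exact_mod_cast h1
      omega
    have hle : ∀ j, u' j ≤ u j := fun j => by
      rw [hu']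
      exact Nat.sub_le _ _
    have hsmu : ∀ D, sm u D = sm u' D + if x ∈ D then 1 else 0 := fun D => by
      rw [← sm_add_single, ← huu]
    by_cases hP : ∀ G Y D : Finset α, G ∪ Y ∪ D = univ →
        ((k' + 1 : ℕ) : ℤ) ≤ rho f G + rho g Y + sm u' D
    · obtain ⟨c, h1, h2, h3, h4⟩ := ih u' f g (k' + 1) hsum' hf hg hP
      exact ⟨c, h1, h2, fun j => (h3 j).trans (hle j), h4⟩
    push Not at hP
    obtain ⟨G1, Y1, D1, hcov1, hlt1⟩ := hP
    have hxcast : (1 : ℤ) ≤ u x := by exact_mod_cast hx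
    have hxD1 : x ∈ D1 := by
      by_contra hcon
      have h1 := h G1 Y1 D1 hcov1
      rw [hsmu D1, if_neg hcon] at h1
      linarith
    have hmem1 : ∀ y, y ∈ G1 ∨ y ∈ Y1 ∨ y ∈ D1 := fun y => by
      have h1 : y ∈ G1 ∪ Y1 ∪ D1 := by
        rw [hcov1]
        exact mem_univ y
      simp only [mem_union] at h1
      tauto
    have hD1 := hsmu D1
    rw [if_pos hxD1] at hD1
    have herase : ∀ G Y : Finset α, G1 ⊆ G → Y1 ⊆ Y → (x ∈ G ∨ x ∈ Y) →
        rho f G + rho g Y ≤ rho f G1 + rho g Y1 → False := by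
      intro G Y hG hY hxGY hr
      have h1 := h G Y (D1.erase x) (by
        ext y
        simp only [mem_union, mem_erase, mem_univ, iff_true]
        by_cases hyx : y = x
        · rw [hyx]
          tauto
        · rcases hmem1 y with h2 | h2 | h2
          · exact Or.inl (Or.inl (hG h2))
          · exact Or.inl (Or.inr (hY h2))
          · exact Or.inr ⟨hyx, h2⟩)
      rw [sm_erase u hxD1] at h1
      linarith
    have hxG1 : x ∉ G1 := fun h1 => herase G1 Y1 Subset.rfl Subset.rfl (Or.inl h1) le_rfl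
    have hxY1 : x ∉ Y1 := fun h1 => herase G1 Y1 Subset.rfl Subset.rfl (Or.inr h1) le_rfl
    have hsing : ∀ {f' : Finset α → ℤ}, ISub f' → ¬ Ind f' (Pi.single x 1) → ∀ G : Finset α,
        rho f' (insert x G) ≤ rho f' G := by
      intro f' hf' hn G
      unfold Ind at hn
      push Not at hn
      obtain ⟨F, hF, hlt⟩ := hn
      rw [sm_single] at hlt
      have h1 := hf'.nn F hF
      have hxF : x ∈ F := by
        by_contra h2
        rw [if_neg h2] at hlt
        linarith
      rw [if_pos hxF] at hlt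
      obtain ⟨c, hc, h2⟩ := (rho_isG hf' (insert x G)).1
      have h3 : (c x : ℤ) ≤ sm c F := by
        unfold sm
        exact Finset.single_le_sum (f := fun j => (c j : ℤ)) (fun i _ => Int.natCast_nonneg _) hxF
      have h4 := hc F hF
      have h5 := sm_insert_le c x G
      have h6 := le_rho hf' hc G
      rw [h2]
      linarith
    have hfx : Ind f (Pi.single x 1) := by
      by_contra hcon
      refine herase (insert x G1) Y1 (subset_insert _ _) Subset.rfl
        (Or.inl (mem_insert_self _ _)) ?_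
      have := hsing hf hcon G1
      linarith
    have hgx : Ind g (Pi.single x 1) := by
      by_contra hcon
      refine herase G1 (insert x Y1) Subset.rfl (subset_insert _ _)
        (Or.inr (mem_insert_self _ _)) ?_
      have := hsing hg hcon Y1
      linarith
    obtain ⟨c, h1, h2, h3, h4⟩ := ih u' (ctr f x) (ctr g x) k' hsum' (isub_ctr hf hfx)
      (isub_ctr hg hgx) (by
      intro G2 Y2 D2 hcov2
      by_contra hcon
      push Not at hcon
      have hmem2 : ∀ y, y ∈ G2 ∨ y ∈ Y2 ∨ y ∈ D2 := fun y => by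
        have h1 : y ∈ G2 ∪ Y2 ∪ D2 := by
          rw [hcov2]
          exact mem_univ y
        simp only [mem_union] at h1
        tauto
      have hDer : sm u (D2.erase x) ≤ sm u' D2 := by
        have h1 := hsmu (D2.erase x)
        rw [if_neg (notMem_erase x D2)] at h1
        have h2 := sm_mono (c := u') (erase_subset x D2)
        linarith
      have hk : ((k' + 1 : ℕ) : ℤ) = k' + 1 := by push_cast; ring
      rcases rho_ctr hf hfx G2 with ⟨hxG2, hG2⟩ | hG2 <;>
        rcases rho_ctr hg hgx Y2 with ⟨hxY2, hY2⟩ | hY2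
      · have h1 := h G2 Y2 D2 hcov2
        have hxD2 : x ∈ D2 := by
          rcases hmem2 x with h2 | h2 | h2
          · exact absurd h2 hxG2
          · exact absurd h2 hxY2
          · exact h2
        rw [hsmu D2, if_pos hxD2] at h1
        linarith
      · have h1 := h G2 (insert x Y2) (D2.erase x) (by
          ext y
          simp only [mem_union, mem_insert, mem_erase, mem_univ, iff_true]
          have := hmem2 y
          tauto)
        linarith
      · have h1 := h (insert x G2) Y2 (D2.erase x) (by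
          ext y
          simp only [mem_union, mem_insert, mem_erase, mem_univ, iff_true]
          have := hmem2 y
          tauto)
        linarith
      · obtain ⟨Ga, hGa⟩ : ∃ Ga, Ga = G1 ∪ insert x G2 := ⟨_, rfl⟩
        obtain ⟨Ya, hYa⟩ : ∃ Ya, Ya = Y1 ∩ insert x Y2 := ⟨_, rfl⟩
        obtain ⟨Gb, hGb⟩ : ∃ Gb, Gb = G1 ∩ insert x G2 := ⟨_, rfl⟩
        obtain ⟨Yb, hYb⟩ : ∃ Yb, Yb = Y1 ∪ insert x Y2 := ⟨_, rfl⟩
        obtain ⟨Da, hDa⟩ : ∃ Da, Da = univ \ (Ga ∪ Ya) := ⟨_, rfl⟩
        obtain ⟨Db, hDb⟩ : ∃ Db, Db = univ \ (Gb ∪ Yb) := ⟨_, rfl⟩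
        have ha := h Ga Ya Da (by
          rw [hDa]
          exact union_sdiff_of_subset (subset_univ _))
        have hb := h Gb Yb Db (by
          rw [hDb]
          exact union_sdiff_of_subset (subset_univ _))
        have s1 := rho_sub hf G1 (insert x G2)
        have s2 := rho_sub hg Y1 (insert x Y2)
        rw [← hGa, ← hGb] at s1
        rw [← hYa, ← hYb] at s2
        have s3 : sm u (Da ∪ Db) ≤ sm u (D1.erase x ∪ D2.erase x) := by
          refine sm_mono fun y hy => ?_
          have m1 := hmem1 y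
          have m2 := hmem2 y
          simp only [hDa, hDb, hGa, hGb, hYa, hYb, mem_union, mem_inter, mem_insert, mem_erase,
            mem_sdiff, mem_univ, true_and] at hy ⊢
          tauto
        have s4 : sm u (Da ∩ Db) ≤ sm u (D1.erase x ∩ D2.erase x) := by
          refine sm_mono fun y hy => ?_
          have m1 := hmem1 y
          have m2 := hmem2 y
          simp only [hDa, hDb, hGa, hGb, hYa, hYb, mem_union, mem_inter, mem_insert, mem_erase,
            mem_sdiff, mem_univ, true_and] at hy ⊢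
          tauto
        have s5 := sm_ui u Da Db
        have s6 := sm_ui u (D1.erase x) (D2.erase x)
        have s7 := sm_erase u hxD1
        linarith)
    refine ⟨c + Pi.single x 1, ind_ctr.1 h1, ind_ctr.1 h2, fun j => ?_, ?_⟩
    · have h5 := h3 j
      rw [huu]
      simp only [Pi.add_apply]
      omega
    · rw [sm_add_single, if_pos (mem_univ x), h4]
      push_cast
      ring

end Pool.Agent.T9h4.DJ
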