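import Pool.Agent.T9h4.DI.Comb
import Pool.Agent.T9h4.DJ.Isect

/-!
An ear with prescribed element: strict inequalities for the partitions give additional room.
-/

set_option autoImplicit false

namespace Pool.Agent.T9h4.DJ

open Module Finset Pool.Agent.T9h4.DI

/-- the labels of a family of disjoint sets -/
theorem exists_lab {N : ℕ} {𝓜 : Finset (Finset (Fin N))}
    (hne : ∀ M ∈ 𝓜, M.Nonempty) (hdis : (𝓜 : Set (Finset (Fin N))).PairwiseDisjoint id)
    {j0 : Fin N} (hj0 : j0 ∉ 𝓜.biUnion id) :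
    ∃ lab : Fin N → Fin N, (univ.image lab).card = 𝓜.card + 1 ∧
      (∀ ψ : Finset (Fin N) → ℕ, ∑ l ∈ univ.image lab, ψ (univ.filter fun j => lab j = l) =
        ψ (univ \ 𝓜.biUnion id) + ∑ M ∈ 𝓜, ψ M) ∧
      ∀ j ∈ 𝓜.biUnion id, lab j0 ≠ lab j := by
  classical
  obtain ⟨r, hr⟩ : ∃ r : Finset (Fin N) → Fin N, ∀ M ∈ 𝓜, r M ∈ M := by
    refine ⟨fun M => if h : M.Nonempty then M.min' h else j0, fun M hM => ?_⟩
    simp only [dif_pos (hne M hM)]
    exact min'_mem _ _
  have huniq : ∀ M ∈ 𝓜, ∀ M' ∈ 𝓜, ∀ j, j ∈ M → j ∈ M' → M = M' := by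
    intro M hM M' hM' j hj hj'
    by_contra hcon
    exact (disjoint_left.1 (hdis (mem_coe.2 hM) (mem_coe.2 hM') hcon)) hj hj'
  have hex : ∀ j : Fin N, ∃ l : Fin N, (∀ M ∈ 𝓜, j ∈ M → l = r M) ∧
      (j ∉ 𝓜.biUnion id → l = j0) := by
    intro j
    by_cases h : j ∈ 𝓜.biUnion id
    · obtain ⟨M, hM, hj⟩ := mem_biUnion.1 h
      exact ⟨r M, fun M' hM' hj' => by rw [huniq M hM M' hM' j hj hj'], fun h1 => absurd h h1⟩
    · exact ⟨j0, fun M hM hj => absurd (mem_biUnion.2 ⟨M, hM, hj⟩) h, fun _ => rfl⟩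
  choose lab hlab1 hlab2 using hex
  have hrj0 : ∀ M ∈ 𝓜, r M ≠ j0 := fun M hM h => hj0 (mem_biUnion.2 ⟨M, hM, h ▸ hr M hM⟩)
  have hinj : Set.InjOn r 𝓜 := fun M hM M' hM' h =>
    huniq M hM M' hM' (r M) (hr M hM) (h ▸ hr M' hM')
  have himg : univ.image lab = insert j0 (𝓜.image r) := by
    ext l
    simp only [mem_image, mem_univ, true_and, mem_insert]
    constructor
    · rintro ⟨j, rfl⟩
      by_cases h : j ∈ 𝓜.biUnion id
      · obtain ⟨M, hM, hj⟩ := mem_biUnion.1 h
        exact Or.inr ⟨M, hM, (hlab1 j M hM hj).symm⟩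
      · exact Or.inl (hlab2 j h)
    · rintro (rfl | ⟨M, hM, rfl⟩)
      · exact ⟨_, hlab2 _ hj0⟩
      · exact ⟨r M, hlab1 _ M hM (hr M hM)⟩
  have hnot : j0 ∉ 𝓜.image r := fun h => by
    obtain ⟨M, hM, h1⟩ := mem_image.1 h
    exact hrj0 M hM h1
  have hf0 : (univ.filter fun j => lab j = j0) = univ \ 𝓜.biUnion id := by
    ext j
    simp only [mem_filter, mem_univ, true_and, mem_sdiff]
    constructor
    · intro h1 h2
      obtain ⟨M, hM, hj⟩ := mem_biUnion.1 h2
      exact hrj0 M hM ((hlab1 j M hM hj).symm.trans h1)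
    · exact hlab2 j
  have hfM : ∀ M ∈ 𝓜, (univ.filter fun j => lab j = r M) = M := by
    intro M hM
    ext j
    simp only [mem_filter, mem_univ, true_and]
    constructor
    · intro h1
      by_cases h : j ∈ 𝓜.biUnion id
      · obtain ⟨M', hM', hj⟩ := mem_biUnion.1 h
        have h2 := hinj hM' hM ((hlab1 j M' hM' hj).symm.trans h1)
        exact h2 ▸ hj
      · exact absurd ((hlab2 j h).symm.trans h1).symm (hrj0 M hM)
    · exact hlab1 j M hM
  refine ⟨lab, ?_, fun ψ => ?_, fun j hj h1 => ?_⟩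
  · rw [himg, card_insert_of_notMem hnot, card_image_of_injOn hinj]
  · rw [himg, sum_insert hnot, hf0, sum_image hinj]
    congr 1
    exact sum_congr rfl fun M hM => by rw [hfM M hM]
  · obtain ⟨M, hM, hj'⟩ := mem_biUnion.1 hj
    rw [hlab2 j0 hj0, hlab1 j M hM hj'] at h1
    exact hrj0 M hM h1.symm

/-- monotone submodular functions -/
theorem le_rho_self {α : Type} [Fintype α] [DecidableEq α] {g : Finset α → ℤ} (hg : ISub g)
    (h0 : g ∅ ≤ 0) (hsub : ∀ F G, g (F ∪ G) ≤ g F + g G) (hmono : ∀ F G, F ⊆ G → g F ≤ g G)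
    (Y : Finset α) : g Y ≤ rho g Y := by
  obtain ⟨c, 𝓜, h1, -, h3, h4, h5, h6⟩ := ext hg hg.zero Y
  have h7 : sm c (𝓜.biUnion id) = sm c Y := by
    unfold sm
    refine (sum_subset h6 fun j _ hj => ?_).symm
    rw [h3 j hj]
    rfl
  have h8 : sm c (𝓜.biUnion id) = ∑ M ∈ 𝓜, g M := by
    unfold sm
    rw [sum_biUnion h5]
    exact sum_congr rfl fun M hM => (h4 M hM).2
  have h9 : g (𝓜.biUnion id) ≤ ∑ M ∈ 𝓜, g M := by
    clear h1 h3 h4 h5 h6 h7 h8
    induction 𝓜 using Finset.induction_on with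
    | empty => simpa using h0
    | insert A 𝓜 hA ih =>
      rw [biUnion_insert, sum_insert hA]
      exact (hsub _ _).trans (by
        have : id A = A := rfl
        rw [this]
        linarith)
  calc g Y ≤ g (𝓜.biUnion id) := hmono _ _ h6
    _ ≤ sm c Y := by rw [← h7, h8]; exact h9
    _ ≤ rho g Y := le_rho hg h1 Y

section

variable (k : Type) {U : Type} [Field k] [AddCommGroup U] [Module k U] {N : ℕ}

/-- the inequalities are strict for the partitions which separate `i` and `j` -/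
def Str (d : ℕ) (T : Fin N → U) (i j : Fin N) : Prop :=
  ∀ φ : Fin N → Fin N, φ i ≠ φ j →
    d * rk k T univ + (univ.image φ).card + 1 ≤
      d * ∑ l ∈ univ.image φ, rk k T (univ.filter fun m => φ m = l)

variable {k} {T : Fin N → U}

/-- **The ear which contains `e`.** -/
theorem ear2 {d : ℕ} (hd : 3 ≤ d) (hT : ∀ j, T j ≠ 0) (h : Crit k d T)
    {S : Submodule k U} (hS : S ≤ sp k T univ) {j0 e : Fin N} (hj0 : T j0 ∈ S) (he : T e ∉ S)
    (hstr : Str k d T j0 e) :
    ∃ (G : Finset (Fin N)) (c : Fin N → ℕ), e ∈ G ∧ (∀ j ∈ G, T j ∉ S) ∧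
      (∀ F ⊆ G, F.Nonempty → (∑ j ∈ F, c j) + 1 ≤ d * rk k T F) ∧
      (∀ F ⊆ G, e ∈ F → (∑ j ∈ F, c j) + 2 ≤ d * rk k T F) ∧
      (∀ F ⊆ G, F ≠ G → d * finrank k S + ∑ j ∈ F, c j ≤ d * finrank k ↥(S ⊔ sp k T F)) ∧
      d * finrank k S + ∑ j ∈ G, c j = d * finrank k ↥(S ⊔ sp k T G) + 1 := by
  classical
  have hfS : FiniteDimensional k S := Submodule.finiteDimensional_of_le hS
  obtain ⟨E, hE⟩ : ∃ E : Finset (Fin N), E = univ.filter fun j => T j ∉ S := ⟨_, rfl⟩
  have hmE : ∀ j, j ∈ E ↔ T j ∉ S := fun j => by rw [hE]; simp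
  have heE : e ∈ E := (hmE e).2 he
  have hj0E : j0 ∉ E := fun h1 => (hmE j0).1 h1 hj0
  have hdS : ∀ F : Finset (Fin N), d * finrank k S ≤ d * finrank k ↥(S ⊔ sp k T F) := fun F =>
    Nat.mul_le_mul_left _ (Submodule.finrank_mono le_sup_left)
  obtain ⟨kk, hkk⟩ : ∃ kk, d * finrank k S + kk = d * finrank k ↥(S ⊔ sp k T E) :=
    ⟨_, Nat.add_sub_of_le (hdS E)⟩
  have hEle : d * finrank k ↥(S ⊔ sp k T E) ≤ d * rk k T univ :=
    Nat.mul_le_mul_left _ (Submodule.finrank_mono (sup_le hS (sp_mono (subset_univ _))))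
  obtain ⟨f, hf⟩ : ∃ f : Finset (Fin N) → ℤ, f = fun F => (d : ℤ) * rk k T F - 1 -
    (if e ∈ F then 2 else 0) + (kk + 3) * (F \ E).card := ⟨_, rfl⟩
  obtain ⟨g, hg⟩ : ∃ g : Finset (Fin N) → ℤ, g = fun F => (d : ℤ) * finrank k ↥(S ⊔ sp k T F) -
    d * finrank k S := ⟨_, rfl⟩
  have hdrk : ∀ F : Finset (Fin N), F.Nonempty → (3 : ℤ) ≤ d * rk k T F := by
    intro F hF
    have h1 := rk_pos (k := k) hT hF
    have h2 : 3 * 1 ≤ d * rk k T F := Nat.mul_le_mul hd h1
    exact_mod_cast h2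
  have hfI : ISub f := by
    refine ⟨fun F hF => ?_, fun F G _ => ?_⟩
    · rw [hf]
      have h1 := hdrk F hF
      have h2 : (0 : ℤ) ≤ (kk + 3) * (F \ E).card := by positivity
      dsimp only
      split_ifs <;> linarith
    · have h1 : (d : ℤ) * rk k T (F ∪ G) + d * rk k T (F ∩ G) ≤ d * rk k T F + d * rk k T G := by
        have h2 := Nat.mul_le_mul_left d (rk_sub (k := k) (T := T) F G)
        rw [Nat.mul_add, Nat.mul_add] at h2
        exact_mod_cast h2
      have h2 : (((F ∪ G) \ E).card : ℤ) + ((F ∩ G) \ E).card = (F \ E).card + (G \ E).card := by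
        have h3 := card_union_add_card_inter (F \ E) (G \ E)
        have h4 : F \ E ∩ (G \ E) = (F ∩ G) \ E := by
          ext z
          simp only [mem_inter, mem_sdiff]
          tauto
        rw [← union_sdiff_distrib, h4] at h3
        exact_mod_cast h3
      have h3 : ((kk : ℤ) + 3) * ((F ∪ G) \ E).card + (kk + 3) * ((F ∩ G) \ E).card =
          (kk + 3) * (F \ E).card + (kk + 3) * (G \ E).card := by
        rw [← mul_add, h2, mul_add]
      rw [hf]
      by_cases h4 : e ∈ F <;> by_cases h5 : e ∈ G <;>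
        simp only [mem_union, mem_inter, h4, h5, true_or, or_true, and_self, or_self, if_true,
          if_false, and_true, and_false] <;> linarith
  have hmono : ∀ F G : Finset (Fin N), F ⊆ G → g F ≤ g G := by
    intro F G hFG
    have h1 := Nat.mul_le_mul_left d (Submodule.finrank_mono
      (sup_le_sup_left (sp_mono (k := k) (T := T) hFG) S))
    have h2 : (d : ℤ) * finrank k ↥(S ⊔ sp k T F) ≤ d * finrank k ↥(S ⊔ sp k T G) := by
      exact_mod_cast h1
    rw [hg]
    dsimp only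
    linarith
  have hgsub : ∀ F G : Finset (Fin N), g (F ∪ G) + g (F ∩ G) ≤ g F + g G := by
    intro F G
    have h1 := Submodule.finrank_sup_add_finrank_inf_eq (S ⊔ sp k T F) (S ⊔ sp k T G)
    have h2 : S ⊔ sp k T (F ∪ G) = (S ⊔ sp k T F) ⊔ (S ⊔ sp k T G) := by
      rw [sp_union, sup_sup_distrib_left]
    have h3 : finrank k ↥(S ⊔ sp k T (F ∩ G)) ≤
        finrank k ↥((S ⊔ sp k T F) ⊓ (S ⊔ sp k T G)) :=
      Submodule.finrank_mono (le_inf (sup_le_sup_left (sp_mono inter_subset_left) S)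
        (sup_le_sup_left (sp_mono inter_subset_right) S))
    rw [← h2] at h1
    have h4 : finrank k ↥(S ⊔ sp k T (F ∪ G)) + finrank k ↥(S ⊔ sp k T (F ∩ G)) ≤
        finrank k ↥(S ⊔ sp k T F) + finrank k ↥(S ⊔ sp k T G) := by omega
    have h5 := Nat.mul_le_mul_left d h4
    rw [Nat.mul_add, Nat.mul_add] at h5
    have h6 : (d : ℤ) * finrank k ↥(S ⊔ sp k T (F ∪ G)) + d * finrank k ↥(S ⊔ sp k T (F ∩ G)) ≤
        d * finrank k ↥(S ⊔ sp k T F) + d * finrank k ↥(S ⊔ sp k T G) := by exact_mod_cast h5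
    rw [hg]
    dsimp only
    linarith
  have hg0 : ∀ F, 0 ≤ g F := by
    intro F
    have h1 := hdS F
    have h2 : (d : ℤ) * finrank k S ≤ d * finrank k ↥(S ⊔ sp k T F) := by exact_mod_cast h1
    rw [hg]
    dsimp only
    linarith
  have hgI : ISub g := ⟨fun F _ => hg0 F, fun F G _ => hgsub F G⟩
  have hge : g ∅ = 0 := by
    have h1 : sp k T ∅ = ⊥ := by
      unfold sp
      simp
    rw [hg]
    dsimp only
    rw [h1, sup_bot_eq, sub_self]
  have hgE : g E = kk := by
    rw [hg]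
    have h1 : (d : ℤ) * finrank k S + kk = d * finrank k ↥(S ⊔ sp k T E) := by exact_mod_cast hkk
    dsimp only
    linarith
  have hgrho : ∀ Y, g Y ≤ rho g Y := le_rho_self hgI hge.le
    (fun F G => by linarith [hgsub F G, hg0 (F ∩ G)]) hmono
  have hrf0 : ∀ Y, 0 ≤ rho f Y := fun Y =>
    (sm_nonneg 0 Y).trans (le_rho hfI hfI.zero Y)
  have hrg0 : ∀ Y, 0 ≤ rho g Y := fun Y => (hg0 Y).trans (hgrho Y)
  obtain ⟨u, hu⟩ : ∃ u : Fin N → ℕ, u = fun j => if j ∈ E then kk else 0 := ⟨_, rfl⟩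
  obtain ⟨c, hc1, hc2, hc3, hc4⟩ := isect _ u f g kk rfl hfI hgI (by
    intro G Y D hcov
    have hmem : ∀ y, y ∈ G ∨ y ∈ Y ∨ y ∈ D := fun y => by
      have h1 : y ∈ G ∪ Y ∪ D := by
        rw [hcov]
        exact mem_univ y
      simp only [mem_union] at h1
      tauto
    by_cases hDE : ∃ y ∈ D, y ∈ E
    · obtain ⟨y, hyD, hyE⟩ := hDE
      have h1 : (u y : ℤ) ≤ sm u D := by
        unfold sm
        exact Finset.single_le_sum (f := fun j => (u j : ℤ)) (fun i _ => Int.natCast_nonneg _) hyD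
      have h2 : u y = kk := by rw [hu]; exact if_pos hyE
      rw [h2] at h1
      linarith [hrf0 G, hrg0 Y]
    push Not at hDE
    have hsD := sm_nonneg u D
    by_cases hGE : ∃ x ∈ G, x ∉ E
    · obtain ⟨x, hxG, hxE⟩ := hGE
      have h1 : ∀ F : Finset (Fin N), sm (Pi.single x kk : Fin N → ℕ) F =
          if x ∈ F then (kk : ℤ) else 0 := by
        intro F
        unfold sm
        rw [← Nat.cast_sum, sum_pi_single']
        split_ifs <;> rfl
      have h2 : Ind f (Pi.single x kk) := by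
        intro F hF
        rw [h1]
        split_ifs with hxF
        · have h3 : 1 ≤ (F \ E).card := card_pos.2 ⟨x, mem_sdiff.2 ⟨hxF, hxE⟩⟩
          have h4 : ((kk : ℤ) + 3) * 1 ≤ (kk + 3) * (F \ E).card :=
            mul_le_mul_of_nonneg_left (by exact_mod_cast h3) (by positivity)
          have h5 := hdrk F hF
          rw [hf]
          dsimp only
          split_ifs <;> linarith
        · exact hfI.nn F hF
      have h3 := le_rho hfI h2 G
      rw [h1, if_pos hxG] at h3
      linarith [hrg0 Y]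
    push Not at hGE
    have hYE : E \ G ⊆ Y := by
      intro y hy
      obtain ⟨hyE, hyG⟩ := mem_sdiff.1 hy
      rcases hmem y with h1 | h1 | h1
      · exact absurd h1 hyG
      · exact h1
      · exact absurd hyE (hDE y h1)
    have hgY : g (E \ G) ≤ rho g Y := (hmono _ _ hYE).trans (hgrho Y)
    obtain ⟨c, 𝓜, h1, -, h3, h4, h5, h6⟩ := ext hfI hfI.zero G
    have hME : ∀ M ∈ 𝓜, M ⊆ E := by
      intro M hM y hy
      by_contra hyE
      obtain ⟨hne, htight⟩ := h4 M hM
      have hne' : (M ∩ E).Nonempty := hne.mono fun z hz =>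
        mem_inter.2 ⟨(mem_inter.1 hz).1, hGE z (mem_inter.1 hz).2⟩
      have h7 : sm c M = sm c (M ∩ E) := by
        unfold sm
        refine (sum_subset inter_subset_left fun j hj hj' => ?_).symm
        rw [h3 j fun h8 => hj' (mem_inter.2 ⟨hj, hGE j h8⟩)]
        rfl
      have h8 := h1 (M ∩ E) hne'
      rw [← h7, htight, hf] at h8
      dsimp only at h8
      have h9 : (d : ℤ) * rk k T (M ∩ E) ≤ d * rk k T M := by
        have := Nat.mul_le_mul_left d (Submodule.finrank_mono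
          (sp_mono (k := k) (T := T) (inter_subset_left (s₁ := M) (s₂ := E))))
        exact_mod_cast this
      have h10 : (M ∩ E) \ E = ∅ := by
        ext z
        simp only [mem_sdiff, mem_inter, notMem_empty, iff_false]
        tauto
      have h11 : 1 ≤ (M \ E).card := card_pos.2 ⟨y, mem_sdiff.2 ⟨hy, hyE⟩⟩
      have h12 : ((kk : ℤ) + 3) * 1 ≤ (kk + 3) * (M \ E).card :=
        mul_le_mul_of_nonneg_left (by exact_mod_cast h11) (by positivity)
      have h13 : (e ∈ M ∩ E) ↔ e ∈ M := by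
        rw [mem_inter]
        exact ⟨fun h => h.1, fun h => ⟨h, heE⟩⟩
      simp only [h13] at h8
      rw [h10, card_empty] at h8
      push_cast at h8
      linarith
    obtain ⟨W, hW⟩ : ∃ W, W = 𝓜.biUnion id := ⟨_, rfl⟩
    rw [← hW] at h6
    have hWE : W ⊆ E := by
      rw [hW]
      intro y hy
      obtain ⟨M, hM, hyM⟩ := mem_biUnion.1 hy
      exact hME M hM hyM
    have hsW : sm c W = sm c G := by
      unfold sm
      refine (sum_subset h6 fun j _ hj => ?_).symm
      rw [h3 j hj]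
      rfl
    have hfG : rho f G ≥ sm c G := le_rho hfI h1 G
    have hneM : ∀ M ∈ 𝓜, M.Nonempty := fun M hM => (h4 M hM).1.mono inter_subset_left
    have hj0W : j0 ∉ 𝓜.biUnion id := fun h7 => hj0E (hWE (hW ▸ h7))
    have hsumf : sm c W = (d : ℤ) * ∑ M ∈ 𝓜, (rk k T M : ℤ) - 𝓜.card -
        (if e ∈ W then 2 else 0) := by
      have h7 : sm c W = ∑ M ∈ 𝓜, f M := by
        rw [hW]
        unfold sm
        rw [sum_biUnion h5]
        exact sum_congr rfl fun M hM => (h4 M hM).2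
      have h8 : ∀ M ∈ 𝓜, f M = (d : ℤ) * rk k T M - 1 - (if e ∈ M then 2 else 0) := by
        intro M hM
        rw [hf]
        dsimp only
        rw [sdiff_eq_empty_iff_subset.2 (hME M hM), card_empty]
        push_cast
        ring
      have h9 : ∑ M ∈ 𝓜, (if e ∈ M then (2 : ℤ) else 0) = if e ∈ W then 2 else 0 := by
        by_cases heW : e ∈ W
        · rw [if_pos heW]
          rw [hW] at heW
          obtain ⟨M0, hM0, he0⟩ := mem_biUnion.1 heW
          rw [Finset.sum_eq_single M0, if_pos (show e ∈ M0 from he0)]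
          · intro M hM hne
            rw [if_neg]
            intro heM
            exact (disjoint_left.1 (h5 (mem_coe.2 hM) (mem_coe.2 hM0) hne)) heM he0
          · exact fun h10 => absurd hM0 h10
        · rw [if_neg heW]
          refine sum_eq_zero fun M hM => if_neg fun heM => heW ?_
          rw [hW]
          exact mem_biUnion.2 ⟨M, hM, heM⟩
      rw [h7, sum_congr rfl h8, sum_sub_distrib, sum_sub_distrib, h9, ← mul_sum, sum_const,
        nsmul_eq_mul, mul_one]
    rcases 𝓜.eq_empty_or_nonempty with h0 | h0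
    · have hG0 : G = ∅ := by
        have h7 : W = ∅ := by
          rw [hW, h0]
          rfl
        exact subset_empty.1 (h7 ▸ h6)
      rw [hG0, sdiff_empty, hgE] at hgY
      linarith [hrf0 G]
    obtain ⟨lab, hl1, hl2, hl3⟩ := exists_lab hneM h5 hj0W
    have hl2' := hl2 fun F => rk k T F
    rw [← hW] at hl2' hl3
    have hrkC : rk k T (univ \ W) ≤ finrank k ↥(S ⊔ sp k T (E \ G)) := by
      refine Submodule.finrank_mono (sp_le fun j hj => ?_)
      have hjW := (mem_sdiff.1 hj).2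
      by_cases hjE : j ∈ E
      · exact Submodule.mem_sup_right (mem_sp (mem_sdiff.2 ⟨hjE, fun h7 => hjW (h6 h7)⟩))
      · rw [hmE, not_not] at hjE
        exact Submodule.mem_sup_left hjE
    have hcr : d * rk k T univ + (𝓜.card + 1) + (if e ∈ W then 1 else 0) ≤
        d * (rk k T (univ \ W) + ∑ M ∈ 𝓜, rk k T M) := by
      rw [← hl1, ← hl2']
      split_ifs with heW
      · exact hstr lab (hl3 e heW)
      · obtain ⟨M, hM⟩ := h0
        obtain ⟨y, hy⟩ := hneM M hM
        exact h lab ⟨j0, y, hl3 y (by rw [hW]; exact mem_biUnion.2 ⟨M, hM, hy⟩)⟩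
    have hcrZ : (d : ℤ) * rk k T univ + (𝓜.card + 1) + (if e ∈ W then 1 else 0) ≤
        d * (rk k T (univ \ W) + ∑ M ∈ 𝓜, (rk k T M : ℤ)) := by
      have h7 : ((d * rk k T univ + (𝓜.card + 1) + (if e ∈ W then 1 else 0) : ℕ) : ℤ) ≤
        ((d * (rk k T (univ \ W) + ∑ M ∈ 𝓜, rk k T M) : ℕ) : ℤ) := by exact_mod_cast hcr
      push_cast at h7
      exact h7
    have hgEG : g (E \ G) = (d : ℤ) * finrank k ↥(S ⊔ sp k T (E \ G)) - d * finrank k S := by
      rw [hg]
    have hrkCZ : (d : ℤ) * rk k T (univ \ W) ≤ d * finrank k ↥(S ⊔ sp k T (E \ G)) := by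
      have := Nat.mul_le_mul_left d hrkC
      exact_mod_cast this
    have hkkZ : (d : ℤ) * finrank k S + kk ≤ d * rk k T univ := by
      have : d * finrank k S + kk ≤ d * rk k T univ := hkk.le.trans hEle
      exact_mod_cast this
    rw [hsW] at hsumf
    rw [mul_add] at hcrZ
    by_cases heW : e ∈ W
    · rw [if_pos heW] at hsumf hcrZ
      linarith
    · rw [if_neg heW] at hsumf hcrZ
      linarith)
  -- the vector
  have hcE : ∀ j, j ∉ E → c j = 0 := by
    intro j hj
    have h1 := hc3 j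
    rw [hu] at h1
    simp only [if_neg hj] at h1
    omega
  have hcsum : ∀ F : Finset (Fin N), sm c F = ((∑ j ∈ F, c j : ℕ) : ℤ) := fun F => by
    unfold sm
    push_cast
    rfl
  have hf1 : ∀ F ⊆ E, F.Nonempty → (∑ j ∈ F, c j) + 1 + (if e ∈ F then 2 else 0) ≤
      d * rk k T F := by
    intro F hF hFn
    have h1 := hc1 F hFn
    rw [hcsum, hf] at h1
    dsimp only at h1
    rw [sdiff_eq_empty_iff_subset.2 hF, card_empty] at h1
    push_cast at h1
    split_ifs at h1 ⊢ <;> zify <;> push_cast <;> linarith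
  have hg1 : ∀ F : Finset (Fin N), d * finrank k S + ∑ j ∈ F, c j ≤
      d * finrank k ↥(S ⊔ sp k T F) := by
    intro F
    rcases F.eq_empty_or_nonempty with h0 | h0
    · rw [h0, sum_empty, add_zero]
      exact hdS ∅
    · have h1 := hc2 F h0
      rw [hcsum, hg] at h1
      dsimp only at h1
      zify
      push_cast at h1
      linarith
  have hgE' : d * finrank k S + ∑ j ∈ E, c j = d * finrank k ↥(S ⊔ sp k T E) := by
    have h1 : ∑ j ∈ E, c j = ∑ j, c j := sum_subset (subset_univ _) fun j _ hj => hcE j hj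
    rw [h1, ← hkk]
    rw [hcsum] at hc4
    have h2 : ∑ j, c j = kk := by exact_mod_cast hc4
    rw [h2]
  obtain ⟨c', hc'⟩ : ∃ c' : Fin N → ℕ, c' = c + Pi.single e 1 := ⟨_, rfl⟩
  have hs : ∀ F : Finset (Fin N), ∑ j ∈ F, c' j = ∑ j ∈ F, c j + if e ∈ F then 1 else 0 := by
    intro F
    rw [hc']
    simp only [Pi.add_apply, sum_add_distrib]
    congr 1
    rw [sum_pi_single']
  obtain ⟨G, hG, hGmin⟩ := exists_min_image
    (univ.filter fun F => F ⊆ E ∧ e ∈ F ∧ d * finrank k S + ∑ j ∈ F, c j =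
      d * finrank k ↥(S ⊔ sp k T F)) Finset.card
    ⟨E, by simp only [mem_filter, mem_univ, true_and]; exact ⟨Subset.rfl, heE, hgE'⟩⟩
  simp only [mem_filter, mem_univ, true_and] at hG hGmin
  obtain ⟨hGE, heG, hGeq⟩ := hG
  refine ⟨G, c', heG, fun j hj => (hmE j).1 (hGE hj), fun F hF hFn => ?_, fun F hF heF => ?_,
    fun F hF hFG => ?_, ?_⟩
  · rw [hs]
    have h1 := hf1 F (hF.trans hGE) hFn
    split_ifs at h1 ⊢ <;> omega
  · rw [hs]
    have h1 := hf1 F (hF.trans hGE) ⟨e, heF⟩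
    rw [if_pos heF] at h1 ⊢
    omega
  · rw [hs]
    have h2 := hg1 F
    split_ifs with heF
    · have h3 : d * finrank k S + ∑ j ∈ F, c j ≠ d * finrank k ↥(S ⊔ sp k T F) := by
        intro h4
        have h5 := hGmin F ⟨hF.trans hGE, heF, h4⟩
        exact hFG (eq_of_subset_of_card_le hF h5)
      omega
    · exact h2
  · rw [hs, if_pos heG, ← hGeq]
    omega

end

end Pool.Agent.T9h4.DJ
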