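import Pool.Agent.T9h4.DI.NegF
import Pool.Agent.T9h4.DJ.Const

/-!
Diagonal intersections: upper bounds for the Kodaira dimension.
-/

set_option autoImplicit false
set_option linter.overlappingInstances false
set_option linter.unusedSectionVars false

open FF Module Finset Pool.Agent.W602.GT Pool.Agent.W603.LV
open Pool.Agent.Y172 Pool.Agent.Y191 Pool.Agent.T9h4.DI Pool.Agent.T9h4.NT
open MvPolynomial (aeval C X)

namespace Pool.Agent.T9h4.DJ

variable {K : Type} [Field K] [Algebra ℂ K] {w N d : ℕ} {x : Fin N → K}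

/-- the number of the values of a map which is not constant -/
theorem two_le_image {N : ℕ} {φ : Fin N → Fin N} (hφ : ∃ i j, φ i ≠ φ j) :
    2 ≤ (univ.image φ).card := by
  classical
  obtain ⟨i1, i2, hne⟩ := hφ
  have h1 : ({φ i1, φ i2} : Finset (Fin N)) ⊆ univ.image φ := by
    intro i hi
    rcases mem_insert.1 hi with rfl | hi
    · exact mem_image_of_mem _ (mem_univ _)
    · rw [mem_singleton.1 hi]
      exact mem_image_of_mem _ (mem_univ _)
  have h2 := card_le_card h1
  rwa [card_pair hne] at h2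

/-- the fibres of the fibration of a partition -/
theorem exists_kmr (hd0 : 0 < d) (h : Dat ℂ d w x) (hN : 0 < N) {φ R : Fin N → Fin N}
    (hR2 : ∀ i j, φ i = φ j → R i = R j) :
    ∃ (σ : Type) (_ : Fintype σ) (_ : DecidableEq σ) (U : σ → K) (e : ℕ) (y : Fin e → K)
      (ℓ : Fin e → MvPolynomial σ (Fb x R)), Kmr (Fb x R) U d y ℓ ∧
      e + 1 ≤ (univ.image φ).card := by
  classical
  obtain ⟨σ, iσ, b0, a, c0, c, hU, hrel⟩ := exists_fib hd0 h hN R
  obtain ⟨U, hUd⟩ : ∃ U : σ → K, U = fun b => x (R (a b)) ^ d / x (R b0) ^ d := ⟨_, rfl⟩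
  rw [← hUd] at hU
  let lam : Fin N → MvPolynomial σ (Fb x R) := fun j => lnf (c0 j) (c j)
  have hlam : ∀ j, aeval U (lam j) = x (R j) ^ d / x (R b0) ^ d := by
    intro j
    rw [hrel j]
    change aeval U (lnf (c0 j) (c j)) = _
    rw [lnf_aeval, hUd]
    rfl
  have hinj : Function.Injective (aeval U : MvPolynomial σ (Fb x R) →ₐ[Fb x R] K) := hU.1
  have hlamR : ∀ i j, φ i = φ j → lam i = lam j := fun i j hij => hinj (by
    rw [hlam, hlam, hR2 i j hij])
  have hlamb : lam b0 = 1 := hinj (by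
    rw [hlam, map_one, div_self (pow_ne_zero _ (h.ne _))])
  have hlam0 : ∀ j, lam j ≠ 0 := by
    intro j h0
    have h1 := hlam j
    rw [h0, map_zero] at h1
    exact div_ne_zero (pow_ne_zero _ (h.ne _)) (pow_ne_zero _ (h.ne _)) h1.symm
  let y : Fin N → K := fun j => x (R j) / x (R b0)
  have hy0 : ∀ j, y j ≠ 0 := fun j => div_ne_zero (h.ne _) (h.ne _)
  have hy : ∀ j, y j ^ d = aeval U (lam j) := fun j => by
    rw [hlam]
    exact div_pow _ _ _
  -- the indices of the nonconstant functions, up to proportionality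
  let nc : Fin N → Prop := fun j => ∃ b, c j b ≠ 0
  have hirr : ∀ j, nc j → Irreducible (lam j) := fun j hj => lnf_irr hj
  let good : Finset (Fin N) → Prop := fun M => (∀ j ∈ M, nc j) ∧
    ∀ i ∈ M, ∀ j ∈ M, lam i ∣ lam j → i = j
  obtain ⟨M, hM, hMmax⟩ := exists_max_image (univ.filter good) Finset.card
    ⟨∅, mem_filter.2 ⟨mem_univ _, fun j hj => absurd hj (notMem_empty j),
      fun j hj => absurd hj (notMem_empty j)⟩⟩
  rw [mem_filter] at hM
  obtain ⟨-, hM1, hM2⟩ := hM
  have hcov : ∀ j, nc j → ∃ i ∈ M, Associated (lam i) (lam j) := by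
    intro j hj
    by_cases hjM : j ∈ M
    · exact ⟨j, hjM, Associated.refl _⟩
    by_contra hcon
    push Not at hcon
    have h1 : good (insert j M) := by
      refine ⟨fun i hi => ?_, fun i hi l hl hil => ?_⟩
      · rcases mem_insert.1 hi with rfl | hi
        · exact hj
        · exact hM1 i hi
      · rcases mem_insert.1 hi with h3 | h3 <;> rcases mem_insert.1 hl with h4 | h4
        · rw [h3, h4]
        · rw [h3] at hil
          exact absurd ((hirr _ hj).associated_of_dvd (hirr _ (hM1 l h4)) hil).symm (hcon l h4)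
        · rw [h4] at hil
          exact absurd ((hirr _ (hM1 i h3)).associated_of_dvd (hirr _ hj) hil) (hcon i h3)
        · exact hM2 i h3 l h4 hil
    have h2 := hMmax (insert j M) (mem_filter.2 ⟨mem_univ _, h1⟩)
    rw [card_insert_of_notMem hjM] at h2
    omega
  let ε := M.equivFin
  let y' : Fin M.card → K := fun i => y (ε.symm i).1
  let ℓ : Fin M.card → MvPolynomial σ (Fb x R) := fun i => lam (ε.symm i).1
  have hEtop : ∀ E : IntermediateField ℂ K, Fb x R ≤ E → (∀ j, y j ∈ E) → E = ⊤ := by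
    intro E hE1 hE2
    rw [eq_top_iff, ← h.gen]
    refine IntermediateField.adjoin_le_iff.2 ?_
    have h1 : ∀ j, x j / x (R b0) ∈ E := by
      intro j
      have h2 := mul_mem (hE1 (mem_Fb R j)) (hE2 j)
      have h3 : x j / x (R j) * y j = x j / x (R b0) := by
        have := h.ne (R j)
        have := h.ne (R b0)
        simp only [y]
        field_simp
      rwa [h3] at h2
    rintro _ ⟨i, j, rfl⟩
    have h2 := div_mem (h1 i) (h1 j)
    have h3 : x i / x (R b0) / (x j / x (R b0)) = x i / x j := by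
      have := h.ne (R b0)
      have := h.ne j
      field_simp
    rwa [h3] at h2
  have hKmr : Kmr (Fb x R) U d y' ℓ := by
    refine ⟨Fb_closed R, hU, fun i => hirr _ (hM1 _ (ε.symm i).2), fun i =>
      lnf_bd (hM1 _ (ε.symm i).2), fun i j hij => ?_, fun i => hy _, ?_⟩
    · have h1 := hM2 _ (ε.symm i).2 _ (ε.symm j).2 hij
      exact ε.symm.injective (Subtype.ext h1)
    · have hF1 : Fb x R ≤ ET (E0 (Fb x R) U) y' Set.univ := fun z hz =>
        le_ET _ (IntermediateField.subset_adjoin ℂ _ (Or.inl hz))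
      have hy1 : ∀ i ∈ M, y i ∈ ET (E0 (Fb x R) U) y' Set.univ := fun i hi =>
        IntermediateField.subset_adjoin ℂ _ (Or.inr ⟨ε ⟨i, hi⟩, Set.mem_univ _, by
          change y (ε.symm (ε ⟨i, hi⟩)).1 = y i
          rw [ε.symm_apply_apply]⟩)
      refine hEtop _ hF1 fun j => ?_
      have hcl : ∀ z : K, z ^ d ∈ Fb x R → z ∈ Fb x R := fun z hz =>
        Fb_closed R z ((isAlgebraic_algebraMap (⟨_, hz⟩ : Fb x R)).of_pow hd0)
      by_cases hj : nc j
      · obtain ⟨i, hi, hij⟩ := hcov j hj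
        obtain ⟨u, hu⟩ := hij
        obtain ⟨r, hr⟩ := MvPolynomial.isUnit_iff_eq_C_of_isReduced.1 u.isUnit
        have h1 : (y j / y i) ^ d = (r : K) := by
          rw [div_pow, hy, hy, ← hu, hr.2, map_mul, MvPolynomial.aeval_C, mul_div_assoc, mul_comm,
            div_mul_cancel₀ _ (by rw [← hy]; exact pow_ne_zero _ (hy0 i))]
          rfl
        have h2 : y j / y i ∈ Fb x R := hcl _ (by rw [h1]; exact r.2)
        have h3 := mul_mem (hF1 h2) (hy1 i hi)
        rwa [div_mul_cancel₀ _ (hy0 i)] at h3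
      · refine hF1 (hcl _ ?_)
        have h1 : ∀ b, c j b = 0 := by
          intro b
          by_contra h0
          exact hj ⟨b, h0⟩
        rw [hy]
        change aeval U (lnf (c0 j) (c j)) ∈ _
        rw [lnf_aeval]
        simp only [h1, map_zero, zero_mul, sum_const_zero, add_zero]
        exact (c0 j).2
  -- the numbers
  have hcard : M.card + 1 ≤ (univ.image φ).card := by
    have hb0 : b0 ∉ M := by
      intro h0
      obtain ⟨b, hb⟩ := hM1 b0 h0
      apply hb
      have h1 := lnf_coeff (c0 b0) (c b0) b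
      rw [← h1]
      change MvPolynomial.coeff _ (lam b0) = 0
      rw [hlamb, MvPolynomial.coeff_one, if_neg]
      intro h2
      have h3 := DFunLike.congr_fun h2 b
      simp at h3
    have h1 : Set.InjOn φ (insert b0 M : Finset (Fin N)) := by
      have key : ∀ i ∈ M, ∀ j, φ i = φ j → nc j := by
        intro i hi j hij
        obtain ⟨b, hb⟩ := hM1 i hi
        refine ⟨b, ?_⟩
        rw [← lnf_coeff (c0 j) (c j) b]
        change MvPolynomial.coeff _ (lam j) ≠ 0
        rw [← hlamR i j hij]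
        change MvPolynomial.coeff _ (lnf (c0 i) (c i)) ≠ 0
        rw [lnf_coeff]
        exact hb
      have hnb : ¬ nc b0 := by
        rintro ⟨b, hb⟩
        apply hb
        rw [← lnf_coeff (c0 b0) (c b0) b]
        change MvPolynomial.coeff _ (lam b0) = 0
        rw [hlamb, MvPolynomial.coeff_one, if_neg]
        intro h2
        have h3 := DFunLike.congr_fun h2 b
        simp at h3
      intro i hi j hj hij
      rcases mem_insert.1 (mem_coe.1 hi) with h3 | h3 <;>
        rcases mem_insert.1 (mem_coe.1 hj) with h4 | h4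
      · rw [h3, h4]
      · rw [h3] at hij
        exact absurd (key j h4 _ hij.symm) hnb
      · rw [h4] at hij
        exact absurd (key i h3 _ hij) hnb
      · exact hM2 i h3 j h4 (by rw [hlamR i j hij])
    rw [← card_insert_of_notMem hb0, ← card_image_of_injOn h1]
    exact card_le_card (image_subset_image (subset_univ _))
  exact ⟨σ, iσ, inferInstance, U, M.card, y', ℓ, hKmr, hcard⟩

/-- **The dimension of the base.** -/
theorem base_ge (hd : 2 ≤ d) (h : Dat ℂ d w x) (hps : Psef ℂ K w (fun _ => False))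
    {φ R : Fin N → Fin N} (hφ : ∃ i j, φ i ≠ φ j)
    (hR2 : ∀ i j, φ i = φ j → R i = R j) :
    ∃ (p : ℕ) (z : Fin p → K), AlgebraicIndependent ℂ z ∧ (∀ i, z i ∈ Fb x R) ∧
      d * (w + 1) ≤ d * p + (d - 1) * (univ.image φ).card := by
  classical
  have hd0 : 0 < d := by omega
  have hN : 0 < N := hφ.choose.pos
  obtain ⟨σ, iσ, dσ, U, e, y, ℓ, hK, hcard⟩ := exists_kmr hd0 h hN hR2
  obtain ⟨p, z, -, hz, hzF, hext⟩ := exists_zF h.dim (Fb_closed (x := x) R)
  refine ⟨p, z, hz, hzF, ?_⟩
  have hw : p + Fintype.card σ = w := by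
    have h1 := hext U hK.bas
    have h2 := h1.cardinalMk_eq_trdeg
    rw [h.dim, Cardinal.mk_fintype] at h2
    have h3 : Fintype.card (Fin p ⊕ σ) = w := by exact_mod_cast h2
    rw [Fintype.card_sum, Fintype.card_fin] at h3
    exact h3
  have hk2 := two_le_image hφ
  have := h.ess
  obtain ⟨d', rfl⟩ : ∃ d', d = d' + 1 := ⟨d - 1, by omega⟩
  rw [Nat.add_sub_cancel]
  obtain ⟨v, hv⟩ : ∃ v, v = Fintype.card σ := ⟨_, rfl⟩
  obtain ⟨q, hq⟩ : ∃ q, q = (univ.image φ).card := ⟨_, rfl⟩
  rw [← hq] at hk2 hcard ⊢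
  have hgoal : (d' + 1) * (v + 1) ≤ d' * q := by
    rcases Nat.eq_zero_or_pos v with hv0 | hv0
    · rw [hv0]
      nlinarith
    · obtain ⟨l⟩ : Nonempty σ := Fintype.card_pos_iff.1 (by omega)
      have h1 : ¬ (e + 1) * (d' + 1 - 1) < (d' + 1) * (Fintype.card σ + 1) := fun hnum =>
        hK.not_psef h.dim hd0 l hnum hps
      rw [Nat.add_sub_cancel, ← hv] at h1
      push Not at h1
      exact h1.trans (by nlinarith)
  rw [← hv] at hw
  rw [← hw]
  nlinarith

/-- **The upper bound for the Kodaira dimension.** -/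
theorem upper (hd : 2 ≤ d) (h : Dat ℂ d w x) {φ : Fin N → Fin N} (hφ : ∃ i j, φ i ≠ φ j)
    (heq : d * rk ℂ (fun j => x j ^ d) univ + (univ.image φ).card =
      d * ∑ i ∈ univ.image φ, rk ℂ (fun j => x j ^ d) (univ.filter fun j => φ j = i))
    {m h' : ℕ} (hm : 0 < m) (hpl : PlurGe ℂ K w m h') :
    d * h' + (d - 1) * (univ.image φ).card ≤ d * (w + 1) := by
  classical
  have hd0 : 0 < d := by omega
  have hN : 0 < N := hφ.choose.pos
  obtain ⟨R, hR1, hR2⟩ := exists_rep φ
  obtain ⟨σ, iσ, dσ, U, e, y, ℓ, hK, hcard⟩ := exists_kmr hd0 h hN hR2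
  obtain ⟨p, z, hFz, hz, hzF, hext⟩ := exists_zF h.dim (Fb_closed (x := x) R)
  have hw : p + Fintype.card σ = w := by
    have h1 := hext U hK.bas
    have h2 := h1.cardinalMk_eq_trdeg
    rw [h.dim, Cardinal.mk_fintype] at h2
    have h3 : Fintype.card (Fin p ⊕ σ) = w := by exact_mod_cast h2
    rw [Fintype.card_sum, Fintype.card_fin] at h3
    exact h3
  have hbase := base_le hd0 h hR1 hR2 hz hzF
  have hk2 := two_le_image hφ
  have := h.ess
  obtain ⟨ω, hω, E, hE, hind⟩ := hpl
  have hps : Psef ℂ K w (fun _ => False) := psef_of_kodGe ⟨m, hm, fun _ => ω 0, fun _ => hω 0, E,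
    hE, by
      rw [algebraicIndependent_empty_type_iff]
      exact (algebraMap ℂ K).injective⟩
  have hrk : rk ℂ (fun j => x j ^ d) univ = w + 1 := h.rk
  rw [hrk] at heq
  obtain ⟨sr, hsr⟩ : ∃ sr, sr = ∑ i ∈ univ.image φ,
    rk ℂ (fun j => x j ^ d) (univ.filter fun j => φ j = i) := ⟨_, rfl⟩
  rw [← hsr] at hbase heq
  obtain ⟨q, hq⟩ : ∃ q, q = (univ.image φ).card := ⟨_, rfl⟩
  rw [← hq] at hbase heq hcard hk2 ⊢
  obtain ⟨v, hv⟩ : ∃ v, v = Fintype.card σ := ⟨_, rfl⟩
  rw [← hv] at hw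
  obtain ⟨d', rfl⟩ : ∃ d', d = d' + 1 := ⟨d - 1, by omega⟩
  rw [Nat.add_sub_cancel]
  have hpq : (d' + 1) * p + d' * q ≤ (d' + 1) * (w + 1) := by
    have h1 := Nat.mul_le_mul_left (d' + 1) hbase
    nlinarith
  suffices hh : h' ≤ p by
    have h1 := Nat.mul_le_mul_left (d' + 1) hh
    omega
  rcases Nat.eq_zero_or_pos v with hv0 | hv0
  · have h1 := hind.lift_cardinalMk_le_trdeg
    rw [h.dim, Cardinal.mk_fin] at h1
    have h2 : h' ≤ w := by
      simpa using h1
    omega
  · obtain ⟨l⟩ : Nonempty σ := Fintype.card_pos_iff.1 (by omega)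
    have h1 : ¬ (e + 1) * (d' + 1 - 1) < (d' + 1) * (Fintype.card σ + 1) := fun hnum =>
      hK.not_psef h.dim hd0 l hnum hps
    rw [Nat.add_sub_cancel, ← hv] at h1
    push Not at h1
    have h2 : d' * q ≤ (d' + 1) * (v + 1) := by
      rw [← hw] at hpq
      nlinarith
    have h3 : (e + 1) * d' ≤ d' * q := by
      rw [mul_comm]
      exact Nat.mul_le_mul_left _ hcard
    have hnum : (e + 1) * (d' + 1 - 1) = (d' + 1) * (Fintype.card σ + 1) := by
      rw [Nat.add_sub_cancel, ← hv]
      omega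
    have h4 : ∀ i : Fin h', ω i.succ E / ω 0 E ∈ Fb x R := fun i =>
      Pool.Agent.T9h4.DJ.Kmr.const h.dim hK hd0 l hnum (hω i.succ) (hω 0) E hE
    have h5 := card_le_of_acl hind (g := z) fun i => hFz ▸ h4 i
    rwa [Fintype.card_fin] at h5

end Pool.Agent.T9h4.DJ
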