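import Pool.Agent.T9h4.DJ.Sum

/-!
Pluricanonical forms with independent ratios.
-/

set_option autoImplicit false
set_option linter.unusedSectionVars false

open FF Module Finset Matrix Pool.Agent.W603.LV Pool.Agent.W602.GT Pool.Agent.Y191
open Pool.Agent.T9h4.NT Pool.Agent.T9h4.DI

namespace Pool.Agent.T9h4.DJ

variable {k K : Type} [Field k] [Field K] [Algebra k K] {w N : ℕ}

/-- powers of independent elements are independent -/
theorem algInd_pow {ι : Type} {f : ι → K} {d : ℕ} (hd : 0 < d) (h : AlgebraicIndependent k f) :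
    AlgebraicIndependent k (fun i => f i ^ d) := by
  rw [algebraicIndependent_iff] at h ⊢
  intro p hp
  have h1 : MvPolynomial.aeval f (MvPolynomial.expand d p) = 0 := by
    rw [← hp]
    rw [← AlgHom.comp_apply]
    congr 1
    ext i
    simp
  have h2 := h _ h1
  exact (MvPolynomial.expand_eq_zero hd).1 h2

theorem fm_mul (Dg : ℕ) (T : Fin N → K) (b : Fin N → ℕ) (Z : Multiset K)
    (u : Unit ⊕ Fin w → K) (i j : Fin N) (D : Fin w → Derivation k K K) :
    fm Dg T (b + Pi.single i 1) (T j ::ₘ Z) u D = fm Dg T b Z u D * (T j / T i) := by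
  classical
  unfold fm
  have h1 : ∏ l, T l ^ (b + Pi.single i 1 : Fin N → ℕ) l = (∏ l, T l ^ b l) * T i := by
    have h2 : ∀ l, T l ^ (b + Pi.single i 1 : Fin N → ℕ) l =
        T l ^ b l * (if l = i then T i else 1) := by
      intro l
      rw [Pi.add_apply, pow_add]
      by_cases hl : l = i
      · rw [hl, Pi.single_eq_same, pow_one, if_pos rfl]
      · rw [Pi.single_eq_of_ne hl, pow_zero, if_neg hl]
    simp only [h2, prod_mul_distrib]
    rw [Finset.prod_ite_eq' univ i (fun _ => T i), if_pos (mem_univ i)]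
  rw [h1, Multiset.prod_cons, mul_comm (T j), mul_div_mul_comm, mul_assoc]

theorem wts_mod {T : Fin N → K} (hT : ∀ j, T j ≠ 0) {Dg ε : ℕ} {b : Fin N → ℕ}
    {Z : Multiset K} (h : Wts k Dg ε T b Z) {i j : Fin N}
    (hs : ∀ A ≤ sp k T univ, T i ∈ A → T j ∉ A → wt T b A + (ε + 1) ≤ Dg * finrank k A + cnt Z A) :
    Wts k Dg ε T (b + Pi.single i 1) (T j ::ₘ Z) := by
  classical
  refine ⟨fun z hz => ?_, ?_, fun A hA h0 h1 => ?_⟩
  · rcases Multiset.mem_cons.1 hz with rfl | hz
    · exact ⟨mem_sp (mem_univ _), hT _⟩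
    · exact h.mem z hz
  · rw [Multiset.card_cons]
    simp only [Pi.add_apply, sum_add_distrib, sum_pi_single', mem_univ, if_true]
    rw [h.tot, add_assoc]
  · rw [wt_add, wt_single]
    have h2 : cnt (T j ::ₘ Z) A = cnt Z A + if T j ∈ A then 1 else 0 := by
      unfold cnt
      rw [Multiset.countP_cons]
    rw [h2]
    have h3 := h.cap A hA h0 h1
    by_cases h4 : T i ∈ A
    · by_cases h5 : T j ∈ A
      · rw [if_pos h4, if_pos h5]
        omega
      · rw [if_pos h4, if_neg h5]
        have := hs A hA h4 h5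
        omega
    · rw [if_neg h4]
      split_ifs <;> omega

variable [CharZero k]

/-- **The image of the map defined by the pluricanonical forms.** -/
theorem plur_of_str' {d M h : ℕ} {x : Fin N → K} (hd : 3 ≤ d) (hx : Dat k d w x)
    (hc : Crit k d (fun j => x j ^ d)) (hM : N ≤ M) (i j : Fin h → Fin N)
    (hij : ∀ l, Str k d (fun j => x j ^ d) (i l) (j l))
    (hind : AlgebraicIndependent k fun l => (x (i l) / x (j l)) ^ d) :
    PlurGe k K w (d * M) h := by
  have hd0 : 0 < d := by omega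
  have hN : 0 < N := by
    refine Nat.pos_of_ne_zero fun h0 => ?_
    subst h0
    have h1 := hx.rk
    have h2 : DI.rk k (fun j => x j ^ d) (univ : Finset (Fin 0)) = 0 := by
      unfold DI.rk sp
      rw [univ_eq_empty, coe_empty, Set.image_empty, Submodule.span_empty, finrank_bot]
    omega
  have hT0 : ∀ j, x j ^ d ≠ 0 := fun j => pow_ne_zero _ (hx.ne j)
  obtain ⟨b, Z, hw, hslk⟩ := exists_sum (K := K) hd hT0 hc hN hM
  obtain ⟨u, a, hua, hu0, -, hspan, htb⟩ := exists_basis hd0 hx
  obtain ⟨D, hD⟩ := exists_dual htb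
  have hu : ∀ j, u j ∈ sp k (fun j => x j ^ d) univ := fun j =>
    hspan ▸ Submodule.subset_span ⟨j, rfl⟩
  have h1 := fm_ne (Dg := d * M) (b := b) (Z := Z) (T := fun j => x j ^ d) hT0
    (fun z hz => (hw.mem z hz).2) hu0 hD
  have hreg : ∀ (b : Fin N → ℕ) (Z : Multiset K), Wts k (d * M) M (fun j => x j ^ d) b Z →
      LogSec k K w (d * M) (fun _ => False) (fm (d * M) (fun j => x j ^ d) b Z u) := by
    intro b Z hw
    have key : ∀ (P : Place k K) (D' : Fin w → Derivation k K K), (∀ i, DerReg P (D' i)) →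
        P.Reg (fm (d * M) (fun j => x j ^ d) b Z u D') := by
      intro P D' hD'
      exact fm_reg P hx.ne (fun _ => rfl) hw hx.rk hu hD' (le_of_eq (mul_comm _ _))
    exact ⟨fm_pluri _ _ _ _ _, fun P _ D' hD' => key P D' fun i => reg_of_log (hD' i),
      fun P _ _ D' hD' => key P D' hD'⟩
  refine ⟨Fin.cases (fm (d * M) (fun j => x j ^ d) b Z u) fun l =>
    fm (d * M) (fun j => x j ^ d) (b + Pi.single (j l) 1) (x (i l) ^ d ::ₘ Z) u,
    fun l => ?_, D, ?_, ?_⟩
  · refine Fin.cases ?_ (fun l => ?_) l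
    · exact hreg _ _ hw
    · exact hreg _ _ (wts_mod hT0 hw fun A hA h2 h3 =>
        hslk (j l) (i l) ((str_equiv d _).symm (hij l)) (hT0 _) A hA h2 h3)
  · exact h1
  · have h4 : (fun l : Fin h => (Fin.cases (fm (d * M) (fun j => x j ^ d) b Z u) (fun l =>
        fm (d * M) (fun j => x j ^ d) (b + Pi.single (j l) 1) (x (i l) ^ d ::ₘ Z) u) l.succ :
        (Fin w → Derivation k K K) → K) D / fm (d * M) (fun j => x j ^ d) b Z u D) =
        fun l => (x (i l) / x (j l)) ^ d := by
      funext l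
      change fm (d * M) (fun j => x j ^ d) (b + Pi.single (j l) 1)
        ((fun j => x j ^ d) (i l) ::ₘ Z) u D / _ = _
      rw [fm_mul, mul_div_assoc, mul_comm, div_mul_cancel₀, div_pow]
      exact h1
    rw [← h4] at hind
    exact hind

theorem plur_of_str {d M h : ℕ} {x : Fin N → K} (hd : 3 ≤ d) (hx : Dat k d w x)
    (hc : Crit k d (fun j => x j ^ d)) (hM : N ≤ M) (i j : Fin h → Fin N)
    (hij : ∀ l, Str k d (fun j => x j ^ d) (i l) (j l))
    (hind : AlgebraicIndependent k fun l => x (i l) / x (j l)) : PlurGe k K w (d * M) h :=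
  plur_of_str' hd hx hc hM i j hij (algInd_pow (by omega) hind)

/-- **General type.** -/
theorem plur_top_of_str {d M : ℕ} {x : Fin N → K} (hd : 3 ≤ d) (hx : Dat k d w x)
    (hc : Crit k d (fun j => x j ^ d)) (hM : N ≤ M)
    (hstr : ∀ i j, Str k d (fun j => x j ^ d) i j) : PlurGe k K w (d * M) w := by
  obtain ⟨u, a, hua, hu0, -, -, htb⟩ := exists_basis (by omega) hx
  refine plur_of_str' hd hx hc hM (fun l => a (Sum.inr l)) (fun _ => a (Sum.inl ()))
    (fun l => hstr _ _) ?_
  have h1 : (fun l : Fin w => (x (a (Sum.inr l)) / x (a (Sum.inl ()))) ^ d) =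
      fun j => u (Sum.inr j) / u (Sum.inl ()) := by
    funext l
    rw [hua, hua, div_pow]
  rw [h1]
  exact htb.1

end Pool.Agent.T9h4.DJ
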