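import Pool.Agent.T9h4.DJ.Fib
import Pool.Agent.T9h4.DJ.Pos2

/-!
Diagonal intersections: lower bounds for the Kodaira dimension.
-/

set_option autoImplicit false
set_option linter.overlappingInstances false
set_option linter.unusedSectionVars false

open FF Module Finset Pool.Agent.W602.GT Pool.Agent.W603.LV
open Pool.Agent.Y172 Pool.Agent.Y191 Pool.Agent.T9h4.DI Pool.Agent.T9h4.NT

namespace Pool.Agent.T9h4.DJ

/-- a maximal independent subfamily -/
theorem exists_indep {K : Type} [Field K] [Algebra ℂ K] {ι : Type} [Fintype ι] (r : ι → K) :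
    ∃ s : Finset ι, AlgebraicIndepOn ℂ r (s : Set ι) ∧ ∀ i, r i ∈ acl ℂ (r '' (s : Set ι)) := by
  classical
  obtain ⟨s, hs, hmax⟩ := exists_max_image
    (univ.filter fun s : Finset ι => AlgebraicIndepOn ℂ r (s : Set ι)) Finset.card
    ⟨∅, by
      rw [mem_filter]
      refine ⟨mem_univ _, ?_⟩
      rw [coe_empty]
      exact algebraicIndependent_empty_type⟩
  rw [mem_filter] at hs
  refine ⟨s, hs.2, fun i => ?_⟩
  by_cases hi : i ∈ s
  · exact subset_acl _ ⟨i, hi, rfl⟩
  rw [mem_acl, IntermediateField.isAlgebraic_adjoin_iff]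
  by_contra hcon
  have h1 : AlgebraicIndepOn ℂ r (insert i (s : Set ι)) := hs.2.insert hcon
  have h2 := hmax (insert i s) (mem_filter.2 ⟨mem_univ _, by rw [coe_insert]; exact h1⟩)
  rw [card_insert_of_notMem hi] at h2
  omega

variable {K : Type} [Field K] [Algebra ℂ K] {w N d : ℕ} {x : Fin N → K}

/-- **The lower bound for a finest partition.** -/
theorem lower {M : ℕ} (hd : 3 ≤ d) (h : Dat ℂ d w x) (hc : Crit ℂ d (fun j => x j ^ d))
    (hM : N ≤ M) (hps : Psef ℂ K w (fun _ => False)) {φ : Fin N → Fin N}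
    (hφ : ∃ i j, φ i ≠ φ j)
    (hfin : ∀ i j, φ i = φ j → Str ℂ d (fun j => x j ^ d) i j) {h' : ℕ}
    (hh : d * h' + (d - 1) * (univ.image φ).card ≤ d * (w + 1)) : PlurGe ℂ K w (d * M) h' := by
  classical
  obtain ⟨R, hR1, hR2⟩ := exists_rep φ
  obtain ⟨p, z, hz, hzF, hp⟩ := base_ge (by omega) h hps hφ hR2
  obtain ⟨s, hs, hacl⟩ := exists_indep fun j => x j / x (R j)
  have h1 : Fb x R ≤ acl ℂ ((fun j => x j / x (R j)) '' (s : Set (Fin N))) :=
    acl_le (acl_closed _) (by
      rintro _ ⟨j, rfl⟩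
      exact hacl j)
  have hrg : Set.range (fun j : s => x j.1 / x (R j.1)) =
      (fun j => x j / x (R j)) '' (s : Set (Fin N)) := by
    ext a
    constructor
    · rintro ⟨j, rfl⟩
      exact ⟨j.1, j.2, rfl⟩
    · rintro ⟨j, hj, rfl⟩
      exact ⟨⟨j, hj⟩, rfl⟩
  have h2 : p ≤ s.card := by
    have h3 := card_le_of_acl hz (g := fun j : s => x j.1 / x (R j.1)) fun i => by
      rw [hrg]
      exact h1 (hzF i)
    rwa [Fintype.card_coe] at h3
  have h3 : h' ≤ s.card := by
    refine le_trans ?_ h2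
    have h4 : d * h' ≤ d * p := by omega
    exact Nat.le_of_mul_le_mul_left h4 (by omega)
  let a : Fin h' → s := fun l => s.equivFin.symm ⟨l.1, l.2.trans_le h3⟩
  have ha : Function.Injective a := by
    intro l l' hl
    have h4 := s.equivFin.symm.injective hl
    exact Fin.ext (Fin.mk.inj h4)
  refine plur_of_str hd h hc hM (fun l => (a l).1) (fun l => R (a l).1)
    (fun l => hfin _ _ (hR1 _).symm) ?_
  exact AlgebraicIndependent.comp hs a ha

end Pool.Agent.T9h4.DJ
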