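import Pool.Agent.T9h4.DJ.Ear

/-!
Weights with additional room at the subspaces which contain `T e` but not `T j0`.
-/

set_option autoImplicit false

namespace Pool.Agent.T9h4.DJ

open Module Finset Pool.Agent.T9h4.DI

section

variable {k : Type} {U : Type} [Field k] [AddCommGroup U] [Module k U] {N : ℕ} {T : Fin N → U}

/-- **The extension by an ear.** -/
theorem comb {d : ℕ} (hd : 0 < d) (hT : ∀ j, T j ≠ 0) {S : Submodule k U}
    (hS : S ≤ sp k T univ) {b : Fin N → ℕ} {Z : Multiset U} (h : Sol d T S b Z)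
    {G : Finset (Fin N)} {c : Fin N → ℕ} (hG : ∀ j ∈ G, T j ∉ S)
    (h1 : ∀ F ⊆ G, F.Nonempty → (∑ j ∈ F, c j) + 1 ≤ d * rk k T F)
    (h2 : ∀ F ⊆ G, F ≠ G → d * finrank k S + ∑ j ∈ F, c j ≤ d * finrank k ↥(S ⊔ sp k T F))
    (h3 : d * finrank k S + ∑ j ∈ G, c j = d * finrank k ↥(S ⊔ sp k T G) + 1) :
    ∃ (S' : Submodule k U) (b' : Fin N → ℕ) (Z' : Multiset U), S < S' ∧ S' ≤ sp k T univ ∧
      sp k T G ≤ S' ∧ Sol d T S' b' Z' ∧
      (∀ A ≤ S', S ⊓ A ≠ ⊥ → S ⊓ A ≠ S → wt T b' A + d * finrank k ↥(S ⊓ A) + cnt Z (S ⊓ A) ≤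
        d * finrank k A + cnt Z' A + wt T b (S ⊓ A)) ∧
      ∀ A ≤ S', S ⊓ A = ⊥ → ∃ F ⊆ G, (∀ j, j ∈ F ↔ j ∈ G ∧ T j ∈ A) ∧
        wt T b' A = ∑ j ∈ F, c j ∧ sp k T F ≤ A := by
  classical
  have hfS : FiniteDimensional k S := Submodule.finiteDimensional_of_le hS
  obtain ⟨S', hS'⟩ : ∃ S' : Submodule k U, S' = S ⊔ sp k T G := ⟨_, rfl⟩
  rw [← hS'] at h3
  have hfS' : FiniteDimensional k S' := by
    rw [hS']
    infer_instance
  have hGne : G.Nonempty := by
    rcases G.eq_empty_or_nonempty with h0 | h0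
    · exfalso
      rw [hS', h0] at h3
      have h4 : sp k T ∅ = ⊥ := by
        unfold sp
        simp
      rw [h4, sup_bot_eq] at h3
      simp at h3
    · exact h0
  have hSS' : S ≤ S' := hS' ▸ le_sup_left
  have hGS' : sp k T G ≤ S' := hS' ▸ le_sup_right
  obtain ⟨z, hz, hz0⟩ : ∃ z ∈ S ⊓ sp k T G, z ≠ 0 := by
    rw [← Submodule.ne_bot_iff]
    intro h0
    have h4 := Submodule.finrank_sup_add_finrank_inf_eq S (sp k T G)
    rw [h0, finrank_bot, add_zero, ← hS'] at h4
    have h5 := h1 G Subset.rfl hGne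
    unfold rk at h5
    rw [h4, Nat.mul_add] at h3
    omega
  have hfr := Submodule.finrank_mono hSS'
  have hsumG : ∀ F : Finset (Fin N), ∑ j ∈ F, (b j + if j ∈ G then c j else 0) =
      ∑ j ∈ F, b j + ∑ j ∈ G.filter (fun j => j ∈ F), c j := by
    intro F
    rw [sum_add_distrib]
    congr 1
    rw [← sum_filter]
    refine sum_congr ?_ fun _ _ => rfl
    ext j
    simp only [mem_filter]
    tauto
  have hwt : ∀ A : Submodule k U, wt T (fun j => b j + if j ∈ G then c j else 0) A =
      wt T b (S ⊓ A) + ∑ j ∈ G.filter fun j => T j ∈ A, c j := by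
    intro A
    rw [← h.wt_inf]
    unfold wt
    rw [hsumG]
    simp
  have hcnt : ∀ A : Submodule k U, cnt (z ::ₘ Z) A = cnt Z (S ⊓ A) + if z ∈ A then 1 else 0 := by
    intro A
    rw [← h.cnt_inf]
    unfold cnt
    rw [Multiset.countP_cons]
  have hw0 : wt T b (⊥ : Submodule k U) = 0 := by
    unfold wt
    refine sum_eq_zero fun j hj => ?_
    simp only [mem_filter, mem_univ, true_and, Submodule.mem_bot] at hj
    exact absurd hj (hT j)
  have hFA : ∀ A : Submodule k U, sp k T (G.filter fun j => T j ∈ A) ≤ A := fun A =>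
    sp_le fun j hj => (mem_filter.1 hj).2
  have hdiff : ∀ A ≤ S', S ⊓ A ≠ ⊥ → S ⊓ A ≠ S →
      wt T (fun j => b j + if j ∈ G then c j else 0) A + d * finrank k ↥(S ⊓ A) +
        cnt Z (S ⊓ A) ≤ d * finrank k A + cnt (z ::ₘ Z) A + wt T b (S ⊓ A) := by
    intro A hA hinf hSA
    have hfA : FiniteDimensional k A := Submodule.finiteDimensional_of_le hA
    obtain ⟨F, hF⟩ : ∃ F : Finset (Fin N), F = G.filter fun j => T j ∈ A := ⟨_, rfl⟩
    have hFG : F ⊆ G := hF ▸ filter_subset _ _
    have hFA' : sp k T F ≤ A := hF ▸ hFA A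
    rw [hwt, hcnt, ← hF]
    have hdim := Submodule.finrank_sup_add_finrank_inf_eq S A
    have hle : finrank k ↥(S ⊔ sp k T F) ≤ finrank k ↥(S ⊔ A) :=
      Submodule.finrank_mono (sup_le_sup_left hFA' S)
    have hle' := Nat.mul_le_mul_left d hle
    have hdim' : d * finrank k ↥(S ⊔ A) + d * finrank k ↥(S ⊓ A) =
        d * finrank k S + d * finrank k A := by
      rw [← Nat.mul_add, ← Nat.mul_add, hdim]
    by_cases hFne : F = G
    · have hzA : z ∈ A := hFA' (hFne ▸ hz.2)
      rw [if_pos hzA, hFne]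
      rw [hFne, ← hS'] at hle'
      omega
    · have h5 := h2 F hFG hFne
      omega
  refine ⟨S', fun j => b j + if j ∈ G then c j else 0, z ::ₘ Z, ?_, ?_, hGS', ?_, hdiff, ?_⟩
  · refine lt_of_le_of_ne hSS' fun h0 => ?_
    obtain ⟨j, hj⟩ := hGne
    exact hG j hj (h0 ▸ hGS' (mem_sp hj))
  · rw [hS']
    exact sup_le hS (sp_mono (subset_univ _))
  · refine ⟨fun j hj => ?_, fun y hy => ?_, ?_, fun A hA hA0 hAS => ?_⟩
    · by_cases hjG : j ∈ G
      · exact hGS' (mem_sp hjG)
      · refine hSS' (h.supp j fun h0 => hj ?_)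
        rw [h0, if_neg hjG]
    · rcases Multiset.mem_cons.1 hy with rfl | hy
      · exact ⟨hSS' hz.1, hz0⟩
      · exact ⟨hSS' (h.mem y hy).1, (h.mem y hy).2⟩
    · rw [hsumG, h.tot, Multiset.card_cons, filter_true_of_mem (fun j _ => mem_univ j)]
      omega
    · have hfA : FiniteDimensional k A := Submodule.finiteDimensional_of_le hA
      by_cases hinf : S ⊓ A = ⊥
      · have hA1 : 0 < finrank k A := Nat.pos_of_ne_zero fun h0 => hA0
          (Submodule.finrank_eq_zero.1 h0)
        have hA2 := Nat.mul_pos hd hA1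
        rw [hwt, hinf, hw0]
        rcases (G.filter fun j => T j ∈ A).eq_empty_or_nonempty with h0 | h0
        · rw [h0, sum_empty]
          omega
        · have h4 := h1 _ (filter_subset _ _) h0
          have h5 : d * rk k T (G.filter fun j => T j ∈ A) ≤ d * finrank k A :=
            Nat.mul_le_mul_left _ (Submodule.finrank_mono (hFA A))
          omega
      by_cases hSA : S ⊓ A = S
      · obtain ⟨F, hF⟩ : ∃ F : Finset (Fin N), F = G.filter fun j => T j ∈ A := ⟨_, rfl⟩
        have hFG : F ⊆ G := hF ▸ filter_subset _ _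
        have hFA' : sp k T F ≤ A := hF ▸ hFA A
        have hdim := Submodule.finrank_sup_add_finrank_inf_eq S A
        have hle : finrank k ↥(S ⊔ sp k T F) ≤ finrank k ↥(S ⊔ A) :=
          Submodule.finrank_mono (sup_le_sup_left hFA' S)
        have hle' := Nat.mul_le_mul_left d hle
        have hdim' : d * finrank k ↥(S ⊔ A) + d * finrank k ↥(S ⊓ A) =
            d * finrank k S + d * finrank k A := by
          rw [← Nat.mul_add, ← Nat.mul_add, hdim]
        have hSA' : S ≤ A := inf_eq_left.1 hSA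
        have hFne : F ≠ G := by
          rintro h0
          refine hAS (le_antisymm hA ?_)
          rw [hS']
          exact sup_le hSA' (h0 ▸ hFA')
        have hw : wt T b (S ⊓ A) = ∑ j, b j := by
          rw [hSA]
          unfold wt
          refine sum_subset (filter_subset _ _) fun j _ hj => ?_
          simp only [mem_filter, mem_univ, true_and] at hj
          by_contra h4
          exact hj (h.supp j h4)
        have hcn : cnt Z (S ⊓ A) = Z.card := by
          rw [hSA]
          unfold cnt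
          rw [Multiset.countP_eq_card]
          exact fun y hy => (h.mem y hy).1
        rw [hwt, hcnt, hw, hcn, h.tot, if_pos (hSA' hz.1), ← hF]
        have h4 := h2 F hFG hFne
        rw [hSA] at hdim'
        omega
      · have h4 := h.cap (S ⊓ A) inf_le_left hinf hSA
        have h5 := hdiff A hA hinf hSA
        omega
  · intro A hA hinf
    refine ⟨G.filter fun j => T j ∈ A, filter_subset _ _, fun j => mem_filter, ?_, hFA A⟩
    rw [hwt, hinf, hw0, zero_add]

/-- the subspaces which contain `T e` but not `T j0` have additional room -/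
def Slk (d : ℕ) (T : Fin N → U) (S : Submodule k U) (b : Fin N → ℕ) (Z : Multiset U)
    (j0 e : Fin N) : Prop :=
  ∀ A ≤ S, T e ∈ A → T j0 ∉ A → wt T b A + 2 ≤ d * finrank k A + cnt Z A

/-- the initial weights -/
theorem sol_init {d : ℕ} (hT : ∀ j, T j ≠ 0) (j0 : Fin N) :
    Sol (k := k) d T (k ∙ T j0) (Pi.single j0 d) 0 := by
  refine ⟨fun j hj => ?_, fun z hz => absurd hz (Multiset.notMem_zero z), ?_, ?_⟩
  · have : j = j0 := by
      by_contra h0
      exact hj (Pi.single_eq_of_ne h0 _)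
    rw [this]
    exact Submodule.mem_span_singleton_self _
  · rw [Multiset.card_zero, add_zero, finrank_span_singleton (hT j0), mul_one]
    simp
  · intro A hA hA0 hA1
    exfalso
    have hf : FiniteDimensional k A := Submodule.finiteDimensional_of_le hA
    have h1 := Submodule.finrank_lt_finrank_of_lt (lt_of_le_of_ne hA hA1)
    rw [finrank_span_singleton (hT j0)] at h1
    exact hA0 (Submodule.finrank_eq_zero.1 (by omega))

/-- **Existence.** -/
theorem exists_sol2 {d : ℕ} (hd : 3 ≤ d) (hT : ∀ j, T j ≠ 0) (hcrit : Crit k d T) {j0 e : Fin N}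
    (hstr : Str k d T j0 e) : ∃ (b : Fin N → ℕ) (Z : Multiset U),
      Sol d T (sp k T univ) b Z ∧ Slk d T (sp k T univ) b Z j0 e := by
  classical
  have hd0 : 0 < d := by omega
  have key : ∀ n : ℕ, ∀ (S : Submodule k U) (b : Fin N → ℕ) (Z : Multiset U),
      rk k T univ - finrank k S = n → S ≤ sp k T univ → T j0 ∈ S → T e ∈ S → Sol d T S b Z →
      Slk d T S b Z j0 e → ∃ (b : Fin N → ℕ) (Z : Multiset U), Sol d T (sp k T univ) b Z ∧
        Slk d T (sp k T univ) b Z j0 e := by
    intro n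
    induction n using Nat.strong_induction_on with
    | _ n ih =>
      intro S b Z hn hS hj0 he h hs
      by_cases hne : S = sp k T univ
      · exact ⟨b, Z, hne ▸ h, hne ▸ hs⟩
      · have hfS : FiniteDimensional k S := Submodule.finiteDimensional_of_le hS
        obtain ⟨G, c, hG, h1, h2, h3⟩ := ear hd0 hT hcrit hS hne hj0
        obtain ⟨S', b', Z', h4, h5, -, h6, h7, -⟩ := comb hd0 hT hS h hG h1 h2 h3
        have hf' : FiniteDimensional k S' := Submodule.finiteDimensional_of_le h5
        have h8 := Submodule.finrank_lt_finrank_of_lt h4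
        have h9 : finrank k S' ≤ rk k T univ := Submodule.finrank_mono h5
        refine ih _ (by omega) S' b' Z' rfl h5 (h4.le hj0) (h4.le he) h6 fun A hA heA hjA => ?_
        have h10 : S ⊓ A ≠ ⊥ := by
          intro h0
          have h11 : T e ∈ S ⊓ A := ⟨he, heA⟩
          rw [h0, Submodule.mem_bot] at h11
          exact hT e h11
        have h11 : S ⊓ A ≠ S := fun h0 => hjA ((inf_eq_left.1 h0) hj0)
        have h12 := h7 A hA h10 h11
        have h13 := hs (S ⊓ A) inf_le_left ⟨he, heA⟩ fun h0 => hjA h0.2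
        omega
  have hS1 : (k ∙ T j0) ≤ sp k T univ := by
    rw [Submodule.span_singleton_le_iff_mem]
    exact mem_sp (mem_univ _)
  have hj0S : T j0 ∈ (k ∙ T j0) := Submodule.mem_span_singleton_self _
  by_cases he : T e ∈ (k ∙ T j0)
  · refine key _ (k ∙ T j0) (Pi.single j0 d) 0 rfl hS1 hj0S he (sol_init hT j0) ?_
    intro A _ heA hjA
    exfalso
    obtain ⟨r, hr⟩ := Submodule.mem_span_singleton.1 he
    have hr0 : r ≠ 0 := by
      rintro rfl
      rw [zero_smul] at hr
      exact hT e hr.symm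
    have h1 : T j0 = r⁻¹ • T e := by
      rw [← hr, smul_smul, inv_mul_cancel₀ hr0, one_smul]
    exact hjA (h1 ▸ A.smul_mem _ heA)
  · obtain ⟨G, c, heG, hG, h1, h1', h2, h3⟩ := ear2 hd hT hcrit hS1 hj0S he hstr
    obtain ⟨S', b', Z', h4, h5, h5', h6, -, h8⟩ := comb hd0 hT hS1 (sol_init hT j0) hG h1 h2 h3
    have hf' : FiniteDimensional k S' := Submodule.finiteDimensional_of_le h5
    refine key _ S' b' Z' rfl h5 (h4.le hj0S) (h5' (mem_sp heG)) h6 fun A hA heA hjA => ?_
    have hfA : FiniteDimensional k A := Submodule.finiteDimensional_of_le hA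
    have h10 : (k ∙ T j0) ⊓ A = ⊥ := by
      rw [eq_bot_iff]
      rintro z ⟨hz1, hz2⟩
      obtain ⟨r, rfl⟩ := Submodule.mem_span_singleton.1 hz1
      rw [Submodule.mem_bot]
      by_contra hr
      have hr0 : r ≠ 0 := by
        rintro rfl
        exact hr (zero_smul _ _)
      have h11 := A.smul_mem r⁻¹ hz2
      rw [smul_smul, inv_mul_cancel₀ hr0, one_smul] at h11
      exact hjA h11
    obtain ⟨F, hF, hFm, hFw, hFA⟩ := h8 A hA h10
    have h11 := h1' F hF ((hFm e).2 ⟨heG, heA⟩)
    have h12 : d * rk k T F ≤ d * finrank k A :=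
      Nat.mul_le_mul_left _ (Submodule.finrank_mono hFA)
    omega

end

end Pool.Agent.T9h4.DJ
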