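import Pool.Agent.T9h4.DJ.Tr
import Pool.Agent.T9h4.DJ.Low

/-!
The Kodaira dimension of the components of intersections of diagonal hypersurfaces.
-/

set_option autoImplicit false
set_option linter.unusedSectionVars false

open FF Module Finset Pool.Agent.W602.GT Pool.Agent.T9h4.NT Pool.Agent.T9h4.DI

namespace Pool.Agent.T9h4.DJ

section defs

variable {K : Type} [Field K] [Algebra ℂ K] {n : ℕ}

/-- The partition `P` of the set of the nonzero coordinates has at least two blocks, and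
`d (w + 1) + (number of blocks) = d ∑ (ranks of the blocks)`. -/
def Tight (d w : ℕ) (y : Fin (n + 1) → K) (P : Finpartition (supp y)) : Prop :=
  2 ≤ P.parts.card ∧ d * (w + 1) + P.parts.card = d * ∑ B ∈ P.parts, brk d y B

end defs

variable {K : Type} [Field K] [Algebra ℂ K] {n d w : ℕ} {y : Fin (n + 1) → K}

theorem exists_ne_of_card {N : ℕ} {φ : Fin N → Fin N} (h : 2 ≤ (univ.image φ).card) :
    ∃ i j, φ i ≠ φ j := by
  classical
  by_contra hcon
  push Not at hcon
  have h2 : (univ.image φ).card ≤ 1 := by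
    rw [card_le_one]
    intro a ha b hb
    obtain ⟨i, -, rfl⟩ := mem_image.1 ha
    obtain ⟨j, -, rfl⟩ := mem_image.1 hb
    exact hcon i j
  omega

/-- the data of a component -/
theorem exists_dat2 (hd : 0 < d) {ι : Type} {F : ι → MvPolynomial (Fin (n + 1)) ℂ}
    (hF : ∀ e, IsDiag d (F e)) (hy : SubVar F K w y) (hcomp : IsComponent F y) :
    ∃ (N : ℕ) (e : Fin N → Fin (n + 1)), Function.Injective e ∧
      (∀ j, (∃ i, e i = j) ↔ y j ≠ 0) ∧ 0 < N ∧ N ≤ n + 1 ∧ Dat ℂ d w (fun i => y (e i)) ∧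
      ∀ m, Crit ℂ m (fun i => y (e i) ^ d) ↔ Balanced m d w y := by
  obtain ⟨N, e, he, hey⟩ := exists_enum y
  have hw := rk_of_comp hd hF hy hcomp
  have h1 := fun m => crit_iff (m := m) hw hd he hey
  have hN : 0 < N := by
    refine Nat.pos_of_ne_zero fun h0 => ?_
    subst h0
    have h2 := (h1 0).1
    have h3 : DI.rk ℂ (fun i => y (e i) ^ d) (univ : Finset (Fin 0)) = 0 := by
      unfold DI.rk sp
      rw [univ_eq_empty, coe_empty, Set.image_empty, Submodule.span_empty, finrank_bot]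
    omega
  have hNn : N ≤ n + 1 := by
    have h2 := Fintype.card_le_of_injective e he
    simpa using h2
  refine ⟨N, e, he, hey, hN, hNn, ⟨fun i => (hey _).1 ⟨i, rfl⟩, ?_, hy.dim, (h1 0).1⟩,
    fun m => (h1 m).2⟩
  rw [eq_top_iff, ← hy.gen]
  refine IntermediateField.adjoin_le_iff.2 ?_
  rintro _ ⟨i, j, hj, rfl⟩
  obtain ⟨j', rfl⟩ := (hey j).2 hj
  by_cases hi : y i = 0
  · rw [hi, zero_div]
    exact zero_mem _
  · obtain ⟨i', rfl⟩ := (hey i).2 hi
    exact IntermediateField.subset_adjoin ℂ _ ⟨i', j', rfl⟩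

/-- indices which are not separated by a tight partition -/
theorem str_of {N : ℕ} {e : Fin N → Fin (n + 1)} (he : Function.Injective e)
    (hey : ∀ j, (∃ i, e i = j) ↔ y j ≠ 0) (hx : Dat ℂ d w (fun i => y (e i)))
    (hb : Balanced d d w y) {i i' : Fin N}
    (h : ∀ P, Tight d w y P → P.part (e i) = P.part (e i')) :
    Str ℂ d (fun i => y (e i) ^ d) i i' := by
  intro φ hφ
  obtain ⟨P, hP⟩ := same_of_map (d := d) he hey φ
  have h1 : 2 ≤ P.parts.card := by
    rw [← hP.card]
    exact two_le_image ⟨i, i', hφ⟩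
  have h2 := hb P h1
  rw [hP.sum, hP.card, hx.rk]
  refine lt_of_le_of_ne h2 fun h3 => hφ ((hP.iff _ _).2 (h P ⟨h1, h3⟩))

/-- **Components of intersections of diagonal hypersurfaces.** -/
theorem main (hd : 2 ≤ d) {ι : Type} {F : ι → MvPolynomial (Fin (n + 1)) ℂ}
    (hF : ∀ e, IsDiag d (F e)) (hy : SubVar F K w y) (hcomp : IsComponent F y) :
    (Psef ℂ K w (fun _ => False) ↔ Balanced d d w y) ∧
      (Psef ℂ K w (fun _ => False) → PlurGe ℂ K w d 0) ∧
      (Balanced (d - 1) d w y → PlurGe ℂ K w (d * (d - 1)) w) ∧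
      (∀ P, Tight d w y P → ∀ m h, 0 < m → PlurGe ℂ K w m h →
        d * h + (d - 1) * P.parts.card ≤ d * (w + 1)) ∧
      (3 ≤ d → Psef ℂ K w (fun _ => False) →
        ((∀ P, ¬ Tight d w y P) → PlurGe ℂ K w (d * (n + 1)) w) ∧
        (∀ P, Tight d w y P → (∀ Q, Tight d w y Q → P ≤ Q) → ∀ h,
          d * h + (d - 1) * P.parts.card ≤ d * (w + 1) → PlurGe ℂ K w (d * (n + 1)) h) ∧
        ∀ (h : ℕ) (i j : Fin h → Fin (n + 1)), (∀ l, y (i l) ≠ 0 ∧ y (j l) ≠ 0) →
          (∀ l P, Tight d w y P → P.part (i l) = P.part (j l)) →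
          AlgebraicIndependent ℂ (fun l => y (i l) / y (j l)) →
          PlurGe ℂ K w (d * (n + 1)) h) := by
  classical
  obtain ⟨N, e, he, hey, hN, hNn, hx, hc⟩ := exists_dat2 (by omega) hF hy hcomp
  have h1 : Balanced d d w y → PlurGe ℂ K w d 0 := fun h =>
    plur_of_crit (by omega) hx ((hc d).2 h)
  have h2 : Psef ℂ K w (fun _ => False) → Balanced d d w y := by
    intro hp
    by_contra hcon
    exact not_psef_of_not_crit hd hx (fun h => hcon ((hc d).1 h)) hp
  have hes : ∀ i, e i ∈ supp y := fun i => mem_supp.2 ((hey _).1 ⟨i, rfl⟩)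
  refine ⟨⟨h2, fun h => psef_of_kodGe ⟨d, by omega, h1 h⟩⟩, fun hp => h1 (h2 hp),
    (DI.main hd hF hy hcomp).2.2, fun P hP m h hm hpl => ?_, fun hd3 hps => ⟨fun hno => ?_, fun P hP hfin h hh => ?_,
    fun h i j hij htied hind => ?_⟩⟩
  · obtain ⟨φ, hφ⟩ := same_of_part (d := d) he hey hN P
    have h3 := upper hd hx (exists_ne_of_card (by rw [hφ.card]; exact hP.1)) (by
      rw [hφ.sum, hφ.card, hx.rk]
      exact hP.2) hm hpl
    rwa [hφ.card] at h3
  · exact plur_top_of_str hd3 hx ((hc d).2 (h2 hps)) hNn fun i i' =>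
      str_of he hey hx (h2 hps) fun P hP => absurd hP (hno P)
  · obtain ⟨φ, hφ⟩ := same_of_part (d := d) he hey hN P
    refine lower hd3 hx ((hc d).2 (h2 hps)) hNn hps
      (exists_ne_of_card (by rw [hφ.card]; exact hP.1)) (fun i i' hii => ?_)
      (by rw [hφ.card]; exact hh)
    refine str_of he hey hx (h2 hps) fun Q hQ => ?_
    have h3 := (hφ.iff i i').1 hii
    obtain ⟨B, hB, hPB⟩ := hfin Q hQ (P.part_mem.2 (hes i))
    have h4 : e i ∈ B := hPB (P.mem_part (hes i))
    have h5 : e i' ∈ B := by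
      refine hPB ?_
      rw [h3]
      exact P.mem_part (hes i')
    rw [Q.part_eq_of_mem hB h4, Q.part_eq_of_mem hB h5]
  · choose i' hi' using fun l => (hey (i l)).2 (hij l).1
    choose j' hj' using fun l => (hey (j l)).2 (hij l).2
    refine plur_of_str hd3 hx ((hc d).2 (h2 hps)) hNn i' j' (fun l => ?_) ?_
    · refine str_of he hey hx (h2 hps) fun P hP => ?_
      rw [hi', hj']
      exact htied l P hP
    · simp only [hi', hj']
      exact hind

end Pool.Agent.T9h4.DJ
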