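import Pool.Agent.T9h4.DJ.Sol
import Pool.Agent.T9h4.DI.Pos
import Mathlib.GroupTheory.Perm.Cycle.Basic

/-!
Sums of weights.
-/

set_option autoImplicit false
set_option linter.unusedSectionVars false

namespace Pool.Agent.T9h4.DJ

open Module Finset Pool.Agent.T9h4.DI

/-- cyclic successors in the classes of an equivalence relation -/
theorem exists_succ {N : ℕ} (r : Fin N → Fin N → Prop) (hr : Equivalence r) :
    ∃ s : Fin N → Fin N, (∀ i, r i (s i)) ∧ ∀ (p : Fin N → Prop) (i j : Fin N), r i j → p i →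
      ¬ p j → ∃ l, ¬ p l ∧ p (s l) := by
  classical
  let C : Fin N → Finset (Fin N) := fun i => univ.filter fun j => r i j
  have hC : ∀ i j, j ∈ C i ↔ r i j := fun i j => by simp [C]
  have hCe : ∀ i j, r i j → C i = C j := by
    intro i j h
    ext l
    rw [hC, hC]
    exact ⟨fun h1 => hr.trans (hr.symm h) h1, fun h1 => hr.trans h h1⟩
  choose f hf using fun S : Finset (Fin N) => S.exists_cycleOn
  have hs : ∀ i, r i (f (C i) i) := fun i =>
    (hC _ _).1 ((hf (C i)).1.apply_mem_iff.2 ((hC _ _).2 (hr.refl i)))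
  refine ⟨fun i => f (C i) i, hs, fun p i j hij hi hj => ?_⟩
  obtain ⟨n, -, hn⟩ := (hf (C j)).1.exists_pow_eq ((hC _ _).2 (hr.refl j))
    ((hC _ _).2 (hr.symm hij))
  by_contra hcon
  push Not at hcon
  have key : ∀ n : ℕ, r j ((f (C j) ^ n) j) ∧ ¬ p ((f (C j) ^ n) j) := by
    intro n
    induction n with
    | zero => exact ⟨hr.refl j, hj⟩
    | succ n ih =>
      have h1 := hs ((f (C j) ^ n) j)
      have h2 := hcon _ ih.2
      rw [← hCe _ _ ih.1] at h1 h2
      rw [pow_succ', Equiv.Perm.mul_apply]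
      exact ⟨hr.trans ih.1 h1, h2⟩
  have h1 := (key n).2
  rw [hn] at h1
  exact h1 hi

section

variable {k : Type} {U : Type} [Field k] [AddCommGroup U] [Module k U] {N : ℕ} {T : Fin N → U}

theorem str_equiv (d : ℕ) (T : Fin N → U) : Equivalence (Str k d T) := by
  refine ⟨fun i φ h => absurd rfl h, fun {i j} h φ hφ => h φ hφ.symm, fun {i j l} h1 h2 φ hφ => ?_⟩
  by_cases h : φ i = φ j
  · exact h2 φ fun h3 => hφ (h.trans h3)
  · exact h1 φ h

theorem wt_sum {M : ℕ} (b : Fin M → Fin N → ℕ) (A : Submodule k U) :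
    wt T (fun j => ∑ m, b m j) A = ∑ m, wt T (b m) A := by
  classical
  unfold wt
  exact sum_comm

theorem cnt_sum {ι : Type} (s : Finset ι) (Z : ι → Multiset U) (A : Submodule k U) :
    cnt (∑ m ∈ s, Z m) A = ∑ m ∈ s, cnt (Z m) A := by
  classical
  unfold cnt
  induction s using Finset.induction_on with
  | empty => simp
  | insert i s hi ih => rw [sum_insert hi, sum_insert hi, Multiset.countP_add, ih]

theorem card_msum {ι : Type} (s : Finset ι) (Z : ι → Multiset U) :
    (∑ m ∈ s, Z m).card = ∑ m ∈ s, (Z m).card := by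
  classical
  induction s using Finset.induction_on with
  | empty => simp
  | insert i s hi ih => rw [sum_insert hi, sum_insert hi, Multiset.card_add, ih]

theorem wt_add (b c : Fin N → ℕ) (A : Submodule k U) : wt T (b + c) A = wt T b A + wt T c A := by
  classical
  unfold wt
  exact sum_add_distrib

theorem wt_single (i : Fin N) (A : Submodule k U) [Decidable (T i ∈ A)] :
    wt T (Pi.single i 1) A = if T i ∈ A then 1 else 0 := by
  classical
  unfold wt
  rw [sum_pi_single']
  simp

/-- the sum of the weights has additional room at all subspaces which separate two equivalent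
indices -/
theorem exists_sum {K : Type} [Field K] [Algebra k K] {T : Fin N → K} {d M : ℕ} (hd : 3 ≤ d)
    (hT : ∀ j, T j ≠ 0) (hcrit : Crit k d T) (hN : 0 < N) (hM : N ≤ M) :
    ∃ (b : Fin N → ℕ) (Z : Multiset K), Wts k (d * M) M T b Z ∧
      ∀ i j, Str k d T i j → T i ≠ 0 → ∀ A ≤ sp k T univ, T i ∈ A → T j ∉ A →
        wt T b A + (M + 1) ≤ d * M * finrank k A + cnt Z A := by
  classical
  obtain ⟨s, hs1, hs2⟩ := exists_succ (Str k d T) (str_equiv d T)
  choose b Z hsol hslk using fun l => exists_sol2 hd hT hcrit (hs1 l)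
  let t : Fin M → Fin N := fun m => if h : m.1 < N then ⟨m.1, h⟩ else ⟨0, hN⟩
  have ht : ∀ l : Fin N, ∃ m, t m = l := fun l => ⟨⟨l.1, l.2.trans_le hM⟩, by simp [t]⟩
  refine ⟨fun j => ∑ m, b (t m) j, ∑ m, Z (t m), ⟨fun z hz => ?_, ?_, fun A hA h0 h1 => ?_⟩, ?_⟩
  · rw [Multiset.mem_sum] at hz
    obtain ⟨m, -, hm⟩ := hz
    exact (hsol (t m)).mem z hm
  · rw [sum_comm, card_msum]
    have h1 : ∀ m, ∑ j, b (t m) j = d * rk k T univ + (Z (t m)).card := fun m => (hsol (t m)).tot
    rw [sum_congr rfl fun m _ => h1 m, sum_add_distrib, sum_const, card_univ, Fintype.card_fin,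
      smul_eq_mul]
    ring
  · rw [wt_sum, cnt_sum]
    have h2 := sum_le_sum fun (m : Fin M) (_ : m ∈ univ) => (hsol (t m)).cap A hA h0 h1
    rw [sum_add_distrib, sum_add_distrib, sum_const, sum_const, card_univ, Fintype.card_fin,
      smul_eq_mul, smul_eq_mul, mul_one] at h2
    refine h2.trans (le_of_eq ?_)
    ring
  · intro i j hij _ A hA hi hj
    obtain ⟨l, hl1, hl2⟩ := hs2 (fun l => T l ∈ A) i j hij hi hj
    obtain ⟨m0, rfl⟩ := ht l
    have h0 : A ≠ ⊥ := by
      rintro rfl
      exact hT _ ((Submodule.mem_bot k).1 hl2)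
    have h1 : A ≠ sp k T univ := by
      rintro rfl
      exact hl1 (mem_sp (mem_univ _))
    have h2 := hslk (t m0) A hA hl2 hl1
    have h3 := sum_le_sum fun (m : Fin M) (_ : m ∈ univ.erase m0) =>
      (hsol (t m)).cap A hA h0 h1
    rw [wt_sum, cnt_sum]
    rw [← add_sum_erase _ (fun m => wt T (b (t m)) A) (mem_univ m0),
      ← add_sum_erase _ (fun m => cnt (Z (t m)) A) (mem_univ m0)]
    rw [sum_add_distrib, sum_add_distrib, sum_const, sum_const, card_erase_of_mem (mem_univ _),
      card_univ, Fintype.card_fin, smul_eq_mul, smul_eq_mul, mul_one] at h3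
    obtain ⟨M', rfl⟩ : ∃ M', M = M' + 1 := ⟨M - 1, by omega⟩
    rw [Nat.add_sub_cancel] at h3
    have h4 : d * (M' + 1) * finrank k A = d * finrank k A + M' * (d * finrank k A) := by ring
    rw [h4]
    omega

end

end Pool.Agent.T9h4.DJ
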