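import Pool.Agent.T9h4.DI.Stm
import Pool.Agent.T9h4.DJ.Ear

/-!
Partitions of the nonzero coordinates and maps.
-/

set_option autoImplicit false
set_option linter.unusedSectionVars false

open FF Module Finset Pool.Agent.W602.GT Pool.Agent.T9h4.NT Pool.Agent.T9h4.DI

namespace Pool.Agent.T9h4.DJ

variable {K : Type} [Field K] [Algebra ℂ K] {n d : ℕ} {y : Fin (n + 1) → K}

/-- the map `φ` has the same fibres as the partition `P` -/
structure Same {N : ℕ} (d : ℕ) (y : Fin (n + 1) → K) (e : Fin N → Fin (n + 1))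
    (φ : Fin N → Fin N) (P : Finpartition (supp y)) : Prop where
  iff : ∀ i i', φ i = φ i' ↔ P.part (e i) = P.part (e i')
  card : (univ.image φ).card = P.parts.card
  sum : ∑ l ∈ univ.image φ, rk ℂ (fun i => y (e i) ^ d) (univ.filter fun m => φ m = l) =
    ∑ B ∈ P.parts, brk d y B

theorem same_of_part {N : ℕ} {e : Fin N → Fin (n + 1)} (he : Function.Injective e)
    (hey : ∀ j, (∃ i, e i = j) ↔ y j ≠ 0) (hN : 0 < N) (P : Finpartition (supp y)) :
    ∃ φ : Fin N → Fin N, Same d y e φ P := by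
  classical
  have hes : ∀ i, e i ∈ supp y := fun i => mem_supp.2 ((hey _).1 ⟨i, rfl⟩)
  have h1 : ∀ B : Finset (Fin (n + 1)), ∃ i : Fin N, B ∈ P.parts → e i ∈ B := by
    intro B
    by_cases hB : B ∈ P.parts
    · obtain ⟨j, hj⟩ := P.nonempty_of_mem_parts hB
      obtain ⟨i, hi⟩ := (hey j).2 (mem_supp.1 (P.le hB hj))
      exact ⟨i, fun _ => by rw [hi]; exact hj⟩
    · exact ⟨⟨0, hN⟩, fun h0 => absurd h0 hB⟩
  choose s hs using h1
  let φ : Fin N → Fin N := fun i => s (P.part (e i))
  have hpart : ∀ i, P.part (e i) ∈ P.parts := fun i => P.part_mem.2 (hes i)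
  have himg : univ.image φ = P.parts.image s := by
    ext i
    simp only [mem_image, mem_univ, true_and]
    constructor
    · rintro ⟨l, rfl⟩
      exact ⟨_, hpart l, rfl⟩
    · rintro ⟨B, hB, rfl⟩
      refine ⟨s B, ?_⟩
      have h2 : P.part (e (s B)) = B :=
        P.eq_of_mem_parts (P.part_mem.2 (hes _)) hB (P.mem_part (hes _)) (hs _ hB)
      simp only [φ, h2]
  have hsinj : Set.InjOn s (P.parts : Set (Finset (Fin (n + 1)))) := by
    intro B hB B' hB' h2
    exact P.eq_of_mem_parts hB hB' (hs B hB) (by rw [h2]; exact hs B' hB')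
  refine ⟨φ, fun i i' => ⟨fun h => hsinj (hpart i) (hpart i') h, fun h => ?_⟩, ?_, ?_⟩
  · simp only [φ, h]
  · rw [himg, card_image_of_injOn hsinj]
  · rw [himg, sum_image hsinj]
    refine sum_congr rfl fun B hB => ?_
    rw [← brk_map he]
    congr 1
    ext j
    simp only [mem_map, mem_filter, mem_univ, true_and, Function.Embedding.coeFn_mk]
    constructor
    · rintro ⟨i, hi, rfl⟩
      have h4 : P.part (e i) = B :=
        P.eq_of_mem_parts (hpart i) hB (hs _ (hpart i)) (by
          have h5 : s (P.part (e i)) = s B := hi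
          rw [h5]
          exact hs B hB)
      rw [← h4]
      exact P.mem_part (hes i)
    · intro hj
      obtain ⟨i, rfl⟩ := (hey j).2 (mem_supp.1 (P.le hB hj))
      refine ⟨i, ?_, rfl⟩
      have h4 : P.part (e i) = B := P.eq_of_mem_parts (hpart i) hB (P.mem_part (hes i)) hj
      simp only [φ, h4]

theorem same_of_map {N : ℕ} {e : Fin N → Fin (n + 1)} (he : Function.Injective e)
    (hey : ∀ j, (∃ i, e i = j) ↔ y j ≠ 0) (φ : Fin N → Fin N) :
    ∃ P : Finpartition (supp y), Same d y e φ P := by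
  classical
  have hes : ∀ i, e i ∈ supp y := fun i => mem_supp.2 ((hey _).1 ⟨i, rfl⟩)
  let blk : Fin N → Finset (Fin (n + 1)) := fun i =>
    (univ.filter fun j => φ j = i).map ⟨e, he⟩
  have hmem : ∀ i j, e j ∈ blk i ↔ φ j = i := by
    intro i j
    simp only [blk, mem_map, mem_filter, mem_univ, true_and, Function.Embedding.coeFn_mk]
    constructor
    · rintro ⟨l, hl, hlj⟩
      rw [← he hlj]
      exact hl
    · exact fun h => ⟨j, h, rfl⟩
  have hinj : Set.InjOn blk (univ.image φ : Finset (Fin N)) := by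
    intro i hi i' _ h2
    obtain ⟨j, -, rfl⟩ := mem_image.1 (mem_coe.1 hi)
    have h3 := (hmem (φ j) j).2 rfl
    rw [h2, hmem] at h3
    exact h3
  let P : Finpartition (supp y) := Finpartition.ofExistsUnique ((univ.image φ).image blk)
    (by
      intro p hp j hj
      obtain ⟨i, -, rfl⟩ := mem_image.1 hp
      simp only [blk, mem_map, mem_filter, mem_univ, true_and,
        Function.Embedding.coeFn_mk] at hj
      obtain ⟨l, -, rfl⟩ := hj
      exact hes l)
    (by
      intro j hj
      obtain ⟨l, rfl⟩ := (hey j).2 (mem_supp.1 hj)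
      refine ⟨blk (φ l), ⟨mem_image_of_mem _ (mem_image_of_mem _ (mem_univ _)),
        (hmem _ _).2 rfl⟩, ?_⟩
      rintro B ⟨hB, hlB⟩
      obtain ⟨i, -, rfl⟩ := mem_image.1 hB
      rw [(hmem _ _).1 hlB])
    (by
      intro h0
      obtain ⟨i, hi, h2⟩ := mem_image.1 h0
      obtain ⟨j, -, rfl⟩ := mem_image.1 hi
      have h3 := (hmem (φ j) j).2 rfl
      rw [h2] at h3
      exact absurd h3 (notMem_empty _))
  have hPp : P.parts = (univ.image φ).image blk := rfl
  have hpart : ∀ i, P.part (e i) = blk (φ i) := fun i =>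
    P.eq_of_mem_parts (P.part_mem.2 (hes i))
      (by rw [hPp]; exact mem_image_of_mem _ (mem_image_of_mem _ (mem_univ _)))
      (P.mem_part (hes i)) ((hmem _ _).2 rfl)
  refine ⟨P, fun i i' => ?_, ?_, ?_⟩
  · rw [hpart, hpart]
    exact ⟨fun h => by rw [h], fun h => hinj (mem_coe.2 (mem_image_of_mem _ (mem_univ _)))
      (mem_coe.2 (mem_image_of_mem _ (mem_univ _))) h⟩
  · rw [hPp, card_image_of_injOn hinj]
  · rw [hPp, sum_image hinj]
    exact (sum_congr rfl fun i _ => brk_map he _).symm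

end Pool.Agent.T9h4.DJ
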